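import Pool.Agent.H57R3.Fam

set_option autoImplicit false

namespace Pool.Agent.H57R3

open Finset

/-- sum of squared distances -/
noncomputable def Phi (A : Finset ℕ) (h : ℤ) : ℝ := ∑ d ∈ A, dn ((h : ℝ) / d)

lemma prod_cos_le (A : Finset ℕ) (h : ℤ) :
    |∏ d ∈ A, Real.cos (Real.pi * (h / d))| ≤ Real.exp (-2 * Phi A h) := by
  rw [Finset.abs_prod]
  have h1 : ∏ d ∈ A, |Real.cos (Real.pi * ((h : ℝ) / d))| ≤
      ∏ d ∈ A, Real.exp (-2 * dn ((h : ℝ) / d)) :=
    Finset.prod_le_prod (fun d _ => abs_nonneg _) fun d _ => abs_cos_pi_le _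
  refine le_trans h1 ?_
  rw [← Real.exp_sum, ← Finset.mul_sum]
  rfl

/-- abstract circle method -/
lemma circle (A : Finset ℕ) (N z i a : ℕ) (hz : 3 ≤ z) (hi : 1 ≤ i) (hzi : z = 2 ^ i)
    (hN : N ≤ 4 ^ (2 * z)) (hNz : z ^ 3 ≤ N) (hA : ∀ d ∈ A, d ∣ N) (hAz : ∀ d ∈ A, z ≤ d)
    (hR : |(∑ d ∈ A, (1 : ℝ) / d) / 2 - a / N| ≤ 1 / (2 * z))
    (hst : ∀ h : ℤ, |(h : ℝ)| ≤ (N : ℝ) / 2 → Phi A h < 2 * z → |(h : ℝ)| ≤ (z : ℝ) ^ 3 / 4)
    (hmid : ∀ h : ℤ, (z : ℝ) / 2 < |(h : ℝ)| → |(h : ℝ)| ≤ (z : ℝ) ^ 3 / 4 → 2 * (i : ℝ) ≤ Phi A h) :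
    ∃ D ⊆ A, (N : ℤ) ∣ (∑ d ∈ D, ((N / d : ℕ) : ℤ)) - a := by
  by_contra hcon
  push Not at hcon
  have hN0 : 0 < N := lt_of_lt_of_le (by positivity) hNz
  have hzR : (3 : ℝ) ≤ z := by exact_mod_cast hz
  set M : ℤ := -((N / 2 : ℕ) : ℤ) with hM
  have hf := fourier A N hN0 hA a M hcon
  set R : ℝ := ∑ d ∈ A, (1 : ℝ) / d with hRdef
  set I : Finset ℤ := Finset.Ico M (M + N) with hI
  set f : ℤ → ℝ := fun h => Real.cos (2 * Real.pi * (h * (R / 2 - (a : ℤ) / N))) *
        ∏ d ∈ A, Real.cos (Real.pi * (h / d)) with hfdef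
  have hf' : ∑ h ∈ I, f h = 0 := hf
  have hIh : ∀ h ∈ I, |(h : ℝ)| ≤ (N : ℝ) / 2 := by
    intro h hh
    rw [hI, Finset.mem_Ico, hM] at hh
    have h2 : 2 * h ≤ N := by omega
    have h3 : -(N : ℤ) ≤ 2 * h := by omega
    have h2' : 2 * (h : ℝ) ≤ N := by exact_mod_cast h2
    have h3' : -(N : ℝ) ≤ 2 * (h : ℝ) := by exact_mod_cast h3
    rw [abs_le]
    constructor <;> linarith
  set I0 : Finset ℤ := I.filter (fun h => |(h : ℝ)| ≤ z / 2) with hI0
  set I1 : Finset ℤ := I.filter (fun h => ¬ |(h : ℝ)| ≤ z / 2) with hI1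
  have hsplit : ∑ h ∈ I, f h = ∑ h ∈ I0, f h + ∑ h ∈ I1, f h :=
    (Finset.sum_filter_add_sum_filter_not I _ f).symm
  have hpi := Real.pi_pos
  have hR' : |R / 2 - ((a : ℤ) : ℝ) / N| ≤ 1 / (2 * z) := by
    rw [Int.cast_natCast]; exact hR
  have h0 : (1 : ℝ) ≤ ∑ h ∈ I0, f h := by
    have hmem : (0 : ℤ) ∈ I0 := by
      rw [hI0, Finset.mem_filter, hI, Finset.mem_Ico, hM]
      refine ⟨⟨by omega, by omega⟩, ?_⟩
      simp only [Int.cast_zero, abs_zero]
      positivity
    have hf0 : f 0 = 1 := by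
      simp [hfdef]
    rw [← hf0]
    refine Finset.single_le_sum (f := f) (fun h hh => ?_) hmem
    rw [hI0, Finset.mem_filter] at hh
    have hh2 := hh.2
    rw [hfdef]
    apply mul_nonneg
    · apply Real.cos_nonneg_of_neg_pi_div_two_le_of_le
      · have h3 : |(h : ℝ) * (R / 2 - (a : ℤ) / N)| ≤ 1 / 4 := by
          rw [abs_mul]
          calc |(h : ℝ)| * |R / 2 - (a : ℤ) / N| ≤ (z / 2) * (1 / (2 * z)) := by
                gcongr
            _ = 1 / 4 := by field_simp; norm_num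
        have := (abs_le.1 h3).1
        nlinarith
      · have h3 : |(h : ℝ) * (R / 2 - (a : ℤ) / N)| ≤ 1 / 4 := by
          rw [abs_mul]
          calc |(h : ℝ)| * |R / 2 - (a : ℤ) / N| ≤ (z / 2) * (1 / (2 * z)) := by
                gcongr
            _ = 1 / 4 := by field_simp; norm_num
        have := (abs_le.1 h3).2
        nlinarith
    · refine Finset.prod_nonneg fun d hd => ?_
      have hdz : (z : ℝ) ≤ d := by exact_mod_cast hAz d hd
      have hd0 : (0 : ℝ) < d := by linarith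
      have h3 : |(h : ℝ) / d| ≤ 1 / 2 := by
        rw [abs_div, abs_of_pos hd0, div_le_iff₀ hd0]
        linarith
      have h4 := abs_le.1 h3
      apply Real.cos_nonneg_of_neg_pi_div_two_le_of_le
      · nlinarith
      · nlinarith
  have h1 : |∑ h ∈ I1, f h| ≤ 1 / 2 := by
    have hbound : ∀ h ∈ I1, |f h| ≤ Real.exp (-4 * z) +
        (if |(h : ℝ)| ≤ (z : ℝ) ^ 3 / 4 then Real.exp (-4 * i) else 0) := by
      intro h hh
      rw [hI1, Finset.mem_filter] at hh
      have hf1 : |f h| ≤ Real.exp (-2 * Phi A h) := by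
        rw [hfdef]
        simp only
        rw [abs_mul]
        calc |Real.cos (2 * Real.pi * (h * (R / 2 - (a : ℤ) / N)))| *
              |∏ d ∈ A, Real.cos (Real.pi * (h / d))| ≤ 1 * Real.exp (-2 * Phi A h) := by
              gcongr
              · exact Real.abs_cos_le_one _
              · exact prod_cos_le A h
          _ = Real.exp (-2 * Phi A h) := one_mul _
      refine le_trans hf1 ?_
      by_cases hΦ : Phi A h < 2 * z
      · have h3 := hst h (hIh h hh.1) hΦ
        rw [if_pos h3]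
        have h4 := hmid h (not_le.1 hh.2) h3
        have h5 : Real.exp (-2 * Phi A h) ≤ Real.exp (-4 * i) := by
          apply Real.exp_le_exp.2
          linarith
        have := Real.exp_pos (-4 * (z : ℝ))
        linarith
      · push Not at hΦ
        have h5 : Real.exp (-2 * Phi A h) ≤ Real.exp (-4 * z) := by
          apply Real.exp_le_exp.2
          linarith
        have h6 : (0 : ℝ) ≤ if |(h : ℝ)| ≤ (z : ℝ) ^ 3 / 4 then Real.exp (-4 * i) else 0 := by
          split_ifs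
          · exact (Real.exp_pos _).le
          · exact le_refl _
        linarith
    have hs1 : |∑ h ∈ I1, f h| ≤ ∑ h ∈ I1, |f h| := Finset.abs_sum_le_sum_abs _ _
    have hs2 := Finset.sum_le_sum hbound
    rw [Finset.sum_add_distrib, Finset.sum_const, ← Finset.sum_filter, Finset.sum_const,
      nsmul_eq_mul, nsmul_eq_mul] at hs2
    -- first part
    have hc1 : (I1.card : ℝ) ≤ N := by
      have h3 : I1.card ≤ I.card := Finset.card_filter_le _ _
      have h4 : I.card = N := by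
        rw [hI, Int.card_Ico]
        omega
      exact_mod_cast h3.trans h4.le
    have hb1 : (I1.card : ℝ) * Real.exp (-4 * z) ≤ 1 / 4 := by
      have hNr : (N : ℝ) ≤ Real.exp (3 * z) := by
        have h3 : (N : ℝ) ≤ (4 : ℝ) ^ (2 * z) := by exact_mod_cast hN
        have h4 : (4 : ℝ) ^ (2 * z) = Real.exp (Real.log 4 * (2 * z : ℕ)) := by
          rw [mul_comm (Real.log 4), Real.exp_nat_mul, Real.exp_log (by norm_num)]
        have h5 : Real.log 4 = 2 * Real.log 2 := by
          rw [show (4 : ℝ) = 2 ^ 2 by norm_num, Real.log_pow]; norm_num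
        have h6 := Real.log_two_lt_d9
        rw [h4] at h3
        refine le_trans h3 (Real.exp_le_exp.2 ?_)
        rw [h5]
        push_cast
        nlinarith
      calc (I1.card : ℝ) * Real.exp (-4 * z) ≤ Real.exp (3 * z) * Real.exp (-4 * z) := by
            gcongr
            exact hc1.trans hNr
        _ = Real.exp (-z) := by rw [← Real.exp_add]; congr 1; ring
        _ ≤ 1 / 4 := by
            rw [Real.exp_neg]
            have h3 := Real.add_one_le_exp (z : ℝ)
            rw [inv_eq_one_div]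
            apply one_div_le_one_div_of_le (by norm_num)
            linarith
    -- second part
    have hc2 : (((I1.filter (fun h : ℤ => |(h : ℝ)| ≤ (z : ℝ) ^ 3 / 4)).card : ℕ) : ℝ) ≤ (z : ℝ) ^ 3 := by
      have h3 : I1.filter (fun h : ℤ => |(h : ℝ)| ≤ (z : ℝ) ^ 3 / 4) ⊆
          Finset.Icc (-((z ^ 3 / 4 : ℕ) : ℤ)) ((z ^ 3 / 4 : ℕ) : ℤ) := by
        intro h hh
        rw [Finset.mem_filter] at hh
        have h4 := hh.2
        have h5 : 4 * |h| ≤ (z : ℤ) ^ 3 := by
          have : 4 * |(h : ℝ)| ≤ (z : ℝ) ^ 3 := by linarith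
          exact_mod_cast this
        have h7 : ((z ^ 3 : ℕ) : ℤ) = (z : ℤ) ^ 3 := by push_cast; ring
        rw [← h7] at h5
        rw [Finset.mem_Icc, ← abs_le]
        omega
      have h4 := Finset.card_le_card h3
      rw [Int.card_Icc] at h4
      have h6 : 27 ≤ z ^ 3 := by
        calc 27 = 3 ^ 3 := by norm_num
          _ ≤ z ^ 3 := by gcongr
      have h5 : (I1.filter (fun h : ℤ => |(h : ℝ)| ≤ (z : ℝ) ^ 3 / 4)).card ≤ z ^ 3 := by omega
      exact_mod_cast h5
    have hb2 : (((I1.filter (fun h : ℤ => |(h : ℝ)| ≤ (z : ℝ) ^ 3 / 4)).card : ℕ) : ℝ) *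
        Real.exp (-4 * i) ≤ 1 / 4 := by
      have h3 : Real.exp (-4 * i) = (Real.exp (-4)) ^ i := by
        rw [← Real.exp_nat_mul]
        congr 1
        ring
      have h4 : 8 * Real.exp (-4) ≤ 1 / 4 := by
        have h5 : (32 : ℝ) ≤ Real.exp 4 := by
          have h6 : Real.exp 4 = (Real.exp 1) ^ 4 := by
            rw [← Real.exp_nat_mul]; norm_num
          have h7 := Real.exp_one_gt_d9
          rw [h6]
          calc (32 : ℝ) ≤ 2.7 ^ 4 := by norm_num
            _ ≤ (Real.exp 1) ^ 4 := by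
                apply pow_le_pow_left₀ (by norm_num)
                linarith
        rw [Real.exp_neg, ← div_eq_mul_inv, div_le_div_iff₀ (by positivity) (by norm_num)]
        linarith
      calc (((I1.filter (fun h : ℤ => |(h : ℝ)| ≤ (z : ℝ) ^ 3 / 4)).card : ℕ) : ℝ) *
            Real.exp (-4 * i) ≤ (z : ℝ) ^ 3 * Real.exp (-4 * i) := by gcongr
        _ = (8 * Real.exp (-4)) ^ i := by
            rw [h3, hzi]
            push_cast
            rw [mul_pow, ← pow_mul, mul_comm i 3, pow_mul]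
            norm_num
        _ ≤ (1 / 4) ^ i := by
            apply pow_le_pow_left₀ _ h4
            positivity
        _ ≤ (1 / 4) ^ 1 := pow_le_pow_of_le_one (by norm_num) (by norm_num) hi
        _ = 1 / 4 := by norm_num
    linarith
  have h2 := abs_le.1 h1
  rw [hsplit] at hf'
  linarith [h2.1]

end Pool.Agent.H57R3
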