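import Pool.Agent.H57R3.Block

set_option autoImplicit false

namespace Pool.Agent.H57R3

open Finset

lemma sum_inv_le (z i : ℕ) (hzi : z = 2 ^ i) (P : Finset ℕ) (hP : ∀ p ∈ P, p.Prime)
    (hP2 : ∀ p ∈ P, p < 2 * z) : ∑ q ∈ P, (1 : ℝ) / q ≤ i + 2 := by
  have h1 : ∑ q ∈ P, (1 : ℝ) / q ≤ ∑ m ∈ Finset.range (2 * z), (1 : ℝ) / ((m + 1 : ℕ) : ℝ) := by
    have hinj : Set.InjOn (fun p : ℕ => p - 1) (P : Set ℕ) := by
      intro p hp q hq hpq
      have h1 := (hP p hp).pos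
      have h2 := (hP q hq).pos
      simp only at hpq
      omega
    calc ∑ q ∈ P, (1 : ℝ) / q = ∑ q ∈ P, (1 : ℝ) / (((q - 1) + 1 : ℕ) : ℝ) := by
          refine Finset.sum_congr rfl fun q hq => ?_
          rw [Nat.sub_add_cancel (hP q hq).pos]
      _ = ∑ m ∈ P.image (fun p => p - 1), (1 : ℝ) / ((m + 1 : ℕ) : ℝ) := by
          rw [Finset.sum_image hinj]
      _ ≤ _ := by
          refine Finset.sum_le_sum_of_subset_of_nonneg ?_ fun m _ _ => by positivity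
          intro m hm
          obtain ⟨p, hp, rfl⟩ := Finset.mem_image.1 hm
          rw [Finset.mem_range]
          have h1 := hP2 p hp
          have h2 := (hP p hp).pos
          omega
  have h2 := harmonic_le_one_add_log (2 * z)
  have h3 : ((harmonic (2 * z) : ℚ) : ℝ) = ∑ m ∈ Finset.range (2 * z), (1 : ℝ) / ((m + 1 : ℕ) : ℝ) := by
    unfold harmonic
    push_cast
    refine Finset.sum_congr rfl fun m _ => ?_
    rw [one_div]
  have h4 : Real.log ((2 * z : ℕ) : ℝ) ≤ i + 1 := by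
    have h5 : ((2 * z : ℕ) : ℝ) = 2 ^ (i + 1) := by
      rw [hzi]; push_cast; ring
    rw [h5, Real.log_pow]
    have h6 := Real.log_two_lt_d9
    push_cast
    nlinarith
  rw [h3] at h2
  linarith

theorem block (i z u k : ℕ) (hzi : z = 2 ^ i) (hzuk : z = u * k) (huk : u ^ 7 ≤ k) (hu : 64 ≤ u)
    (hiu : 8192 * i ≤ u ^ 2) (hiu2 : i + 2 ≤ u) (P : Finset ℕ) (hP : ∀ p ∈ P, p.Prime)
    (hP2 : ∀ p ∈ P, p < 2 * z) (hB : 7 * k ≤ (P.filter (fun p => z ≤ p)).card) (a : ℕ)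
    (ha1 : 1 / (u : ℝ) ^ 2 ≤ (a : ℝ) / ((∏ q ∈ P, q : ℕ) : ℝ))
    (ha2 : (a : ℝ) / ((∏ q ∈ P, q : ℕ) : ℝ) ≤ (∑ p ∈ P.filter (fun p => z ≤ p), (1 : ℝ) / p) / 2) :
    ∃ D : Finset ℕ, (∀ d ∈ D, d ∣ ∏ q ∈ P, q) ∧ (∀ d ∈ D, ∃ p ∈ P, z ≤ p ∧ p ∣ d) ∧
      ∑ d ∈ D, (1 : ℝ) / d = (a : ℝ) / ((∏ q ∈ P, q : ℕ) : ℝ) := by
  classical
  set N : ℕ := ∏ q ∈ P, q with hNdef
  set B : Finset ℕ := P.filter (fun p => z ≤ p) with hBdef
  set x : ℝ := (a : ℝ) / (N : ℝ) with hx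
  -- numerics
  have huR : (64 : ℝ) ≤ u := by exact_mod_cast hu
  have hu0 : (0 : ℝ) < u := by linarith
  have hukR : (u : ℝ) ^ 7 ≤ k := by exact_mod_cast huk
  have hk0 : 0 < k := lt_of_lt_of_le (by positivity) huk
  have hk0R : (0 : ℝ) < k := by exact_mod_cast hk0
  have hzR : (z : ℝ) = u * k := by exact_mod_cast hzuk
  have hz0 : (0 : ℝ) < z := by rw [hzR]; positivity
  have hz8 : (u : ℝ) ^ 8 ≤ z := by
    rw [hzR]
    calc (u : ℝ) ^ 8 = (u : ℝ) * (u : ℝ) ^ 7 := by ring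
      _ ≤ (u : ℝ) * k := by gcongr
  have hz3n : 3 ≤ z := by
    have : 64 * 1 ≤ u * k := Nat.mul_le_mul hu hk0
    omega
  have hz1n : 1 ≤ z := by omega
  have hi1 : 1 ≤ i := by
    by_contra h
    have : i = 0 := by omega
    rw [this] at hzi
    omega
  have hi2 : 2 * (i : ℝ) ≤ u ^ 2 / 4096 := by
    have : 8192 * (i : ℝ) ≤ u ^ 2 := by exact_mod_cast hiu
    linarith
  have hu2z : 8 * u ^ 2 ≤ z := by
    have h1 : 8 * u ^ 2 ≤ u ^ 8 := by
      calc 8 * u ^ 2 ≤ u * u ^ 2 := by gcongr; omega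
        _ = u ^ 3 := by ring
        _ ≤ u ^ 8 := Nat.pow_le_pow_right (by omega) (by norm_num)
    have h2 : u ^ 8 ≤ z := by exact_mod_cast hz8
    omega
  have hu2zR : 8 * (u : ℝ) ^ 2 ≤ z := by exact_mod_cast hu2z
  have hkz : 16384 * z ^ 3 ≤ k ^ 4 := by
    have h1 : 16384 * u ^ 3 ≤ k := by
      calc 16384 * u ^ 3 ≤ u ^ 4 * u ^ 3 := by
            gcongr
            calc 16384 ≤ 64 ^ 4 := by norm_num
              _ ≤ u ^ 4 := Nat.pow_le_pow_left hu 4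
        _ = u ^ 7 := by ring
        _ ≤ k := huk
    calc 16384 * z ^ 3 = (16384 * u ^ 3) * k ^ 3 := by rw [hzuk]; ring
      _ ≤ k * k ^ 3 := by gcongr
      _ = k ^ 4 := by ring
  -- the seven parts
  obtain ⟨S, hSB, hcard, hdisj⟩ := exists_parts k 7 B hB
  have hBP : B ⊆ P := Finset.filter_subset _ _
  have hSP : ∀ i, S i ⊆ P := fun i => (hSB i).trans hBP
  have hSz : ∀ i, ∀ p ∈ S i, z ≤ p := fun i p hp => (Finset.mem_filter.1 (hSB i hp)).2
  have hfam := fam_mem z hz1n P hP S hSP hSz hdisj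
  set F : Finset ℕ := fam P S with hF
  have hkz1 : (k : ℝ) / z = 1 / u := by
    rw [hzR]; field_simp
  have hRF : ∑ d ∈ F, (1 : ℝ) / d ≤ 1 / (u : ℝ) ^ 2 := by
    have h1 := fam_sum z k hz1n P hP S hSz hcard
    have h2 := sum_inv_le z i hzi P hP hP2
    have h3 : ∑ q ∈ P, (1 : ℝ) / q ≤ u := by
      refine h2.trans ?_
      exact_mod_cast hiu2
    have h4 : (k : ℝ) ^ 3 / z ^ 3 = 1 / u ^ 3 := by
      rw [← div_pow, hkz1, div_pow, one_pow]
    have h5 : (k : ℝ) ^ 4 / z ^ 4 = 1 / u ^ 4 := by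
      rw [← div_pow, hkz1, div_pow, one_pow]
    rw [h4, mul_div_assoc, h5] at h1
    calc ∑ d ∈ F, (1 : ℝ) / d ≤ 1 / (u : ℝ) ^ 3 + 4 * (1 / (u : ℝ) ^ 4) +
          (∑ q ∈ P, (1 : ℝ) / q) * (1 / (u : ℝ) ^ 4) := h1
      _ ≤ 1 / (u : ℝ) ^ 3 + u * (1 / (u : ℝ) ^ 4) + u * (1 / (u : ℝ) ^ 4) := by
          gcongr
          linarith
      _ = 3 * (1 / (u : ℝ) ^ 3) := by field_simp; ring
      _ ≤ u * (1 / (u : ℝ) ^ 3) := by
          gcongr
          linarith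
      _ = 1 / (u : ℝ) ^ 2 := by field_simp
  have hRF0 : 0 ≤ ∑ d ∈ F, (1 : ℝ) / d := Finset.sum_nonneg fun d _ => by positivity
  -- choose the single primes
  set τ : ℝ := 2 * x - ∑ d ∈ F, (1 : ℝ) / d with hτ
  have hτ1 : 1 / (u : ℝ) ^ 2 ≤ τ := by
    rw [hτ]; linarith
  have hτ2 : τ ≤ ∑ p ∈ B, (1 : ℝ) / p := by
    rw [hτ]; linarith
  have hτ0 : 0 ≤ τ := le_trans (by positivity) hτ1
  obtain ⟨G, hGB, hG1, hG2⟩ := greedy (fun p => (1 : ℝ) / p) (1 / z) τ hτ0 (by positivity) B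
    (by
      intro b hb
      have h1 : z ≤ b := (Finset.mem_filter.1 hb).2
      have h2 : (z : ℝ) ≤ b := by exact_mod_cast h1
      exact one_div_le_one_div_of_le hz0 h2) hτ2
  have hGP : G ⊆ P := hGB.trans hBP
  have hGz : ∀ p ∈ G, z ≤ p := fun p hp => (Finset.mem_filter.1 (hGB hp)).2
  have hGcard : (z : ℝ) / (2 * u ^ 2) ≤ G.card := by
    have h1 : ∑ p ∈ G, (1 : ℝ) / p ≤ G.card * (1 / z) := by
      rw [← nsmul_eq_mul]
      refine Finset.sum_le_card_nsmul _ _ _ fun p hp => ?_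
      have h2 : (z : ℝ) ≤ p := by exact_mod_cast hGz p hp
      exact one_div_le_one_div_of_le hz0 h2
    have h2 : 1 / (u : ℝ) ^ 2 - 1 / z ≤ G.card * (1 / z) := by linarith
    have h3 : (z : ℝ) / u ^ 2 - 1 ≤ G.card := by
      have h4 := mul_le_mul_of_nonneg_right h2 hz0.le
      have h5 : (G.card : ℝ) * (1 / z) * z = G.card := by field_simp
      have h6 : (1 / (u : ℝ) ^ 2 - 1 / z) * z = z / u ^ 2 - 1 := by field_simp
      rw [h5, h6] at h4
      exact h4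
    have h7 : (1 : ℝ) ≤ z / (2 * u ^ 2) := by
      rw [le_div_iff₀ (by positivity)]
      nlinarith
    have h8 : (z : ℝ) / u ^ 2 = z / (2 * u ^ 2) + z / (2 * u ^ 2) := by field_simp; norm_num
    linarith
  -- the full family
  have hdGF : Disjoint G F := by
    rw [Finset.disjoint_left]
    intro d hdG hdF
    have h1 := hP2 d (hGP hdG)
    have h2 := (hfam d hdF).1
    have h3 : 2 * z ≤ z ^ 3 := by
      calc 2 * z ≤ z * z := by gcongr; omega
        _ = z ^ 2 := by ring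
        _ ≤ z ^ 3 := Nat.pow_le_pow_right hz1n (by norm_num)
    omega
  set A : Finset ℕ := G ∪ F with hA
  have hRA : ∑ d ∈ A, (1 : ℝ) / d = ∑ d ∈ G, (1 : ℝ) / d + ∑ d ∈ F, (1 : ℝ) / d := by
    rw [hA, Finset.sum_union hdGF]
  have hAdvd : ∀ d ∈ A, d ∣ N := by
    intro d hd
    rcases Finset.mem_union.1 hd with h | h
    · exact Finset.dvd_prod_of_mem _ (hGP h)
    · exact (hfam d h).2.1
  have hz13 : z ≤ z ^ 3 := by
    calc z = z ^ 1 := (pow_one z).symm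
      _ ≤ z ^ 3 := Nat.pow_le_pow_right hz1n (by norm_num)
  have hAz : ∀ d ∈ A, z ≤ d := by
    intro d hd
    rcases Finset.mem_union.1 hd with h | h
    · exact hGz d h
    · exact hz13.trans (hfam d h).1
  have hAp : ∀ d ∈ A, ∃ p ∈ P, z ≤ p ∧ p ∣ d := by
    intro d hd
    rcases Finset.mem_union.1 hd with h | h
    · exact ⟨d, hGP h, hGz d h, dvd_refl _⟩
    · exact (hfam d h).2.2
  have hN0 : 0 < N := Finset.prod_pos fun q hq => (hP q hq).pos
  have hN0R : (0 : ℝ) < N := by exact_mod_cast hN0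
  -- an element of the family
  have hNz : z ^ 3 ≤ N := by
    have hne : ∀ j : Fin 7, (S j).Nonempty := fun j => by
      rw [← Finset.card_pos, hcard]; exact hk0
    obtain ⟨c1, h1⟩ := hne 0
    obtain ⟨c2, h2⟩ := hne 1
    obtain ⟨c3, h3⟩ := hne 2
    have h4 := hfam _ (fam3 (P := P) c1 h1 c2 h2 c3 h3)
    exact h4.1.trans (Nat.le_of_dvd hN0 h4.2.1)
  have hNzR : (z : ℝ) ^ 3 ≤ N := by exact_mod_cast hNz
  have hN4 : N ≤ 4 ^ (2 * z) := by
    refine le_trans ?_ (primorial_le_four_pow (2 * z))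
    unfold primorial
    refine Finset.prod_le_prod_of_subset_of_one_le' ?_ ?_
    · intro p hp
      rw [Finset.mem_filter, Finset.mem_range]
      have := hP2 p hp
      exact ⟨by omega, hP p hp⟩
    · intro p hp _
      exact (Finset.mem_filter.1 hp).2.pos
  have hR : |(∑ d ∈ A, (1 : ℝ) / d) / 2 - (a : ℝ) / N| ≤ 1 / (2 * z) := by
    rw [hRA, ← hx, abs_le]
    have h3 : (1 : ℝ) / (2 * z) = (1 / z) / 2 := by field_simp
    rw [h3]
    simp only [hτ] at hG1 hG2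
    constructor <;> linarith
  have hst : ∀ h : ℤ, |(h : ℝ)| ≤ (N : ℝ) / 2 → Phi A h < 2 * z → |(h : ℝ)| ≤ (z : ℝ) ^ 3 / 4 := by
    intro h hh hΦ
    obtain ⟨y, hy1, hy2⟩ := structural z k hz1n hk0 hkz P hP hP2 S hSP hSz hcard hdisj A
      (fun c1 h1 c2 h2 c3 h3 i hi e he => Finset.mem_union_right _ (fam4 c1 h1 c2 h2 c3 h3 i hi e he))
      (fun q hq e1 h1 e2 h2 e3 h3 e4 h4 hn => Finset.mem_union_right _
        (fam5 q hq e1 h1 e2 h2 e3 h3 e4 h4 hn)) h hΦ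
    have hNy : N ∣ y.natAbs := by
      refine Finset.prod_primes_dvd _ (fun q hq => (hP q hq).prime) fun q hq => ?_
      exact Int.natCast_dvd.1 (hy1 q hq)
    have hy0 : y = 0 := by
      by_contra hne
      have h1 : N ≤ y.natAbs := Nat.le_of_dvd (Int.natAbs_pos.2 hne) hNy
      have h2 : (N : ℝ) ≤ |(y : ℝ)| := by
        have : (N : ℝ) ≤ ((y.natAbs : ℕ) : ℝ) := by exact_mod_cast h1
        rwa [Nat.cast_natAbs, Int.cast_abs] at this
      have h3 : |(y : ℝ)| ≤ |(h : ℝ)| + (z : ℝ) ^ 3 / 4 := by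
        have h8 := abs_sub_abs_le_abs_sub (y : ℝ) (h : ℝ)
        rw [abs_sub_comm] at h8
        linarith
      have h5 : (0 : ℝ) < (z : ℝ) ^ 3 := by positivity
      linarith
    rw [hy0] at hy2
    simpa using hy2
  have hmid : ∀ h : ℤ, (z : ℝ) / 2 < |(h : ℝ)| → |(h : ℝ)| ≤ (z : ℝ) ^ 3 / 4 →
      2 * (i : ℝ) ≤ Phi A h := by
    intro h h1 h2
    by_cases h3 : |(h : ℝ)| ≤ (z : ℝ) ^ 2 / 2
    · have h4 := mid1 z u (by omega) hu2z G A Finset.subset_union_left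
        (fun p hp => hP p (hGP hp)) hGz (fun p hp => hP2 p (hGP hp)) hGcard h h1 h3
      refine le_trans ?_ h4
      refine hi2.trans ?_
      rw [div_le_div_iff₀ (by norm_num) (by positivity)]
      calc (u : ℝ) ^ 2 * (4096 * u ^ 6) = (u : ℝ) ^ 8 * 4096 := by ring
        _ ≤ (z : ℝ) * 4096 := by gcongr
    · have h4 := mid2 z k hz1n P hP hP2 S hSP hSz hcard hdisj A
        (fun c1 h1 c2 h2 c3 h3 => Finset.mem_union_right _ (fam3 c1 h1 c2 h2 c3 h3)) h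
        (not_le.1 h3) h2
      refine le_trans ?_ h4
      refine hi2.trans ?_
      rw [div_le_div_iff₀ (by norm_num) (by positivity)]
      calc (u : ℝ) ^ 2 * (256 * z ^ 2) = (256 * (u : ℝ) ^ 4) * (k : ℝ) ^ 2 := by rw [hzR]; ring
        _ ≤ (4096 * (u : ℝ) ^ 7) * (k : ℝ) ^ 2 := by
            gcongr
            · norm_num
            · linarith
            · norm_num
        _ ≤ (4096 * (k : ℝ)) * (k : ℝ) ^ 2 := by gcongr
        _ = (k : ℝ) ^ 3 * 4096 := by ring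
  obtain ⟨D, hDA, hDN⟩ := circle A N z i a hz3n hi1 hzi hN4 hNz hAdvd hAz hR hst hmid
  refine ⟨D, fun d hd => hAdvd d (hDA hd), fun d hd => hAp d (hDA hd), ?_⟩
  -- the sum is exactly x
  obtain ⟨m, hm⟩ := hDN
  have hsum : ∑ d ∈ D, (1 : ℝ) / d - x = m := by
    have h1 : (((∑ d ∈ D, ((N / d : ℕ) : ℤ)) - a : ℤ) : ℝ) = ((N * m : ℤ) : ℝ) := by
      rw [hm]
    simp only [Int.cast_sub, Int.cast_sum, Int.cast_natCast, Int.cast_mul] at h1
    have h2 : ∑ d ∈ D, ((N / d : ℕ) : ℝ) = N * ∑ d ∈ D, (1 : ℝ) / d := by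
      rw [Finset.mul_sum]
      refine Finset.sum_congr rfl fun d hd => ?_
      have hdN := hAdvd d (hDA hd)
      have hd0 : (d : ℝ) ≠ 0 := by
        have : d ≠ 0 := by
          have := hAz d (hDA hd)
          omega
        exact_mod_cast this
      rw [Nat.cast_div hdN hd0]
      ring
    rw [h2] at h1
    rw [hx]
    field_simp
    linarith
  have hs0 : 0 ≤ ∑ d ∈ D, (1 : ℝ) / d := Finset.sum_nonneg fun d _ => by positivity
  have hs1 : ∑ d ∈ D, (1 : ℝ) / d ≤ 2 * x := by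
    have h1 : ∑ d ∈ D, (1 : ℝ) / d ≤ ∑ d ∈ A, (1 : ℝ) / d :=
      Finset.sum_le_sum_of_subset_of_nonneg hDA fun d _ _ => by positivity
    simp only [hτ] at hG2
    linarith
  have hx0 : 0 < x := lt_of_lt_of_le (by positivity) ha1
  have hx1 : x ≤ 1 / 2 := by
    have h1 : ∑ p ∈ B, (1 : ℝ) / p ≤ B.card * (1 / z) := by
      rw [← nsmul_eq_mul]
      refine Finset.sum_le_card_nsmul _ _ _ fun p hp => ?_
      have h2 : z ≤ p := (Finset.mem_filter.1 hp).2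
      have h3 : (z : ℝ) ≤ p := by exact_mod_cast h2
      exact one_div_le_one_div_of_le hz0 h3
    have h2 : B.card ≤ z := by
      have h3 : B ⊆ Finset.Ico z (2 * z) := by
        intro p hp
        rw [Finset.mem_Ico]
        exact ⟨(Finset.mem_filter.1 hp).2, hP2 p (hBP hp)⟩
      have h4 := Finset.card_le_card h3
      rw [Nat.card_Ico] at h4
      omega
    have h3 : (B.card : ℝ) * (1 / z) ≤ 1 := by
      have h4 : (B.card : ℝ) ≤ z := by exact_mod_cast h2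
      calc (B.card : ℝ) * (1 / z) ≤ z * (1 / z) := by gcongr
        _ = 1 := by field_simp
    linarith
  have hm0 : m = 0 := by
    have h1 : (m : ℝ) < 1 := by linarith
    have h2 : (-1 : ℝ) < m := by linarith
    have h3 : m < 1 := by exact_mod_cast h1
    have h4 : -1 < m := by exact_mod_cast h2
    omega
  rw [hm0] at hsum
  push_cast at hsum
  linarith

end Pool.Agent.H57R3
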