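import Pool.Agent.H57R3.Mid

set_option autoImplicit false

namespace Pool.Agent.H57R3

open Finset

/-- the auxiliary family of divisors with at least three prime factors -/
def fam (P : Finset ℕ) (S : Fin 7 → Finset ℕ) : Finset ℕ :=
  (S 0 ×ˢ S 1 ×ˢ S 2).image pr3 ∪
  ((S 0 ×ˢ S 1 ×ˢ S 2 ×ˢ (S 3 ∪ (S 4 ∪ (S 5 ∪ S 6)))).image pr4 ∪
  ((P ×ˢ (S 3 ×ˢ S 4 ×ˢ S 5 ×ˢ S 6)).filter (fun x => ¬ x.1 ∣ pr4 x.2)).image
    (fun x => x.1 * pr4 x.2))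

lemma fam3 {P : Finset ℕ} {S : Fin 7 → Finset ℕ} :
    ∀ c1 ∈ S 0, ∀ c2 ∈ S 1, ∀ c3 ∈ S 2, c1 * c2 * c3 ∈ fam P S := by
  intro a ha b hb c hc
  apply Finset.mem_union_left
  exact Finset.mem_image.2 ⟨(a, b, c), by simp [ha, hb, hc], rfl⟩

lemma fam4 {P : Finset ℕ} {S : Fin 7 → Finset ℕ} :
    ∀ c1 ∈ S 0, ∀ c2 ∈ S 1, ∀ c3 ∈ S 2, ∀ i : Fin 7, 3 ≤ i → ∀ e ∈ S i,
      c1 * c2 * c3 * e ∈ fam P S := by
  intro a ha b hb c hc i hi e he
  apply Finset.mem_union_right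
  apply Finset.mem_union_left
  refine Finset.mem_image.2 ⟨(a, b, c, e), ?_, rfl⟩
  simp only [Finset.mem_product, Finset.mem_union]
  refine ⟨ha, hb, hc, ?_⟩
  fin_cases i
  · exact absurd hi (by decide)
  · exact absurd hi (by decide)
  · exact absurd hi (by decide)
  · exact Or.inl he
  · exact Or.inr (Or.inl he)
  · exact Or.inr (Or.inr (Or.inl he))
  · exact Or.inr (Or.inr (Or.inr he))

lemma fam5 {P : Finset ℕ} {S : Fin 7 → Finset ℕ} :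
    ∀ q ∈ P, ∀ e1 ∈ S 3, ∀ e2 ∈ S 4, ∀ e3 ∈ S 5, ∀ e4 ∈ S 6,
      ¬ q ∣ e1 * e2 * e3 * e4 → q * (e1 * e2 * e3 * e4) ∈ fam P S := by
  intro q hq a ha b hb c hc d hd hnd
  apply Finset.mem_union_right
  apply Finset.mem_union_right
  refine Finset.mem_image.2 ⟨(q, (a, b, c, d)), ?_, rfl⟩
  simp only [Finset.mem_filter, Finset.mem_product]
  exact ⟨⟨hq, ha, hb, hc, hd⟩, hnd⟩

lemma fam_mem (z : ℕ) (hz : 1 ≤ z) (P : Finset ℕ) (hP : ∀ p ∈ P, p.Prime)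
    (S : Fin 7 → Finset ℕ) (hSP : ∀ i, S i ⊆ P) (hSz : ∀ i, ∀ p ∈ S i, z ≤ p)
    (hdisj : ∀ i j, i ≠ j → Disjoint (S i) (S j)) :
    ∀ d ∈ fam P S, z ^ 3 ≤ d ∧ d ∣ ∏ q ∈ P, q ∧ ∃ p ∈ P, z ≤ p ∧ p ∣ d := by
  have hprime : ∀ i, ∀ p ∈ S i, p.Prime := fun i p hp => hP p (hSP i hp)
  have hdv : ∀ p ∈ P, p ∣ ∏ q ∈ P, q := fun p hp => Finset.dvd_prod_of_mem _ hp
  have hcop : ∀ i j : Fin 7, i ≠ j → ∀ a ∈ S i, ∀ b ∈ S j, Nat.Coprime a b := by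
    intro i j hij a ha b hb
    rw [Nat.coprime_primes (hprime i a ha) (hprime j b hb)]
    rintro rfl
    exact Finset.disjoint_left.1 (hdisj i j hij) ha hb
  have h34 : z ^ 3 ≤ z ^ 4 := Nat.pow_le_pow_right hz (by norm_num)
  intro d hd
  simp only [fam, Finset.mem_union, Finset.mem_image, Finset.mem_product, Finset.mem_filter,
    Prod.exists] at hd
  rcases hd with ⟨a, b, c, ⟨ha, hb, hc⟩, rfl⟩ | ⟨a, b, c, e, ⟨ha, hb, hc, he⟩, rfl⟩ |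
    ⟨q, a, b, c, e, ⟨⟨hq, ha, hb, hc, he⟩, hnd⟩, rfl⟩
  · refine ⟨?_, ?_, a, hSP 0 ha, hSz 0 a ha, ?_⟩
    · have h1 := hSz 0 a ha
      have h2 := hSz 1 b hb
      have h3 := hSz 2 c hc
      calc z ^ 3 = z * z * z := by ring
        _ ≤ a * b * c := by gcongr
    · exact Nat.Coprime.mul_dvd_of_dvd_of_dvd
        (Nat.Coprime.mul_left (hcop 0 2 (by decide) a ha c hc) (hcop 1 2 (by decide) b hb c hc))
        (Nat.Coprime.mul_dvd_of_dvd_of_dvd (hcop 0 1 (by decide) a ha b hb)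
          (hdv a (hSP 0 ha)) (hdv b (hSP 1 hb))) (hdv c (hSP 2 hc))
    · exact (dvd_mul_right a b).mul_right c
  · obtain ⟨i, hi, hei⟩ : ∃ i : Fin 7, 3 ≤ i ∧ e ∈ S i := by
      rcases he with h | h | h | h
      · exact ⟨3, le_refl _, h⟩
      · exact ⟨4, by decide, h⟩
      · exact ⟨5, by decide, h⟩
      · exact ⟨6, by decide, h⟩
    have hi0 : (0 : Fin 7) ≠ i := by rintro rfl; exact absurd hi (by decide)
    have hi1 : (1 : Fin 7) ≠ i := by rintro rfl; exact absurd hi (by decide)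
    have hi2 : (2 : Fin 7) ≠ i := by rintro rfl; exact absurd hi (by decide)
    refine ⟨?_, ?_, a, hSP 0 ha, hSz 0 a ha, ?_⟩
    · have h1 := hSz 0 a ha
      have h2 := hSz 1 b hb
      have h3 := hSz 2 c hc
      have h4 := hSz i e hei
      calc z ^ 3 ≤ z ^ 4 := h34
        _ = z * z * z * z := by ring
        _ ≤ a * b * c * e := by gcongr
    · exact Nat.Coprime.mul_dvd_of_dvd_of_dvd
        (Nat.Coprime.mul_left (Nat.Coprime.mul_left (hcop 0 i hi0 a ha e hei)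
          (hcop 1 i hi1 b hb e hei)) (hcop 2 i hi2 c hc e hei))
        (Nat.Coprime.mul_dvd_of_dvd_of_dvd
          (Nat.Coprime.mul_left (hcop 0 2 (by decide) a ha c hc) (hcop 1 2 (by decide) b hb c hc))
          (Nat.Coprime.mul_dvd_of_dvd_of_dvd (hcop 0 1 (by decide) a ha b hb)
            (hdv a (hSP 0 ha)) (hdv b (hSP 1 hb))) (hdv c (hSP 2 hc))) (hdv e (hSP i hei))
    · exact ((dvd_mul_right a b).mul_right c).mul_right e
  · have hbd : pr4 (a, b, c, e) ∣ ∏ q ∈ P, q :=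
      Nat.Coprime.mul_dvd_of_dvd_of_dvd
        (Nat.Coprime.mul_left (Nat.Coprime.mul_left (hcop 3 6 (by decide) a ha e he)
          (hcop 4 6 (by decide) b hb e he)) (hcop 5 6 (by decide) c hc e he))
        (Nat.Coprime.mul_dvd_of_dvd_of_dvd
          (Nat.Coprime.mul_left (hcop 3 5 (by decide) a ha c hc) (hcop 4 5 (by decide) b hb c hc))
          (Nat.Coprime.mul_dvd_of_dvd_of_dvd (hcop 3 4 (by decide) a ha b hb)
            (hdv a (hSP 3 ha)) (hdv b (hSP 4 hb))) (hdv c (hSP 5 hc))) (hdv e (hSP 6 he))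
    have hqp := hP q hq
    refine ⟨?_, ?_, a, hSP 3 ha, hSz 3 a ha, ?_⟩
    · have h1 := hSz 3 a ha
      have h2 := hSz 4 b hb
      have h3 := hSz 5 c hc
      have h4 := hSz 6 e he
      calc z ^ 3 ≤ z ^ 4 := h34
        _ = 1 * (z * z * z * z) := by ring
        _ ≤ q * (a * b * c * e) := by
            have := hqp.pos
            gcongr
            exact this
    · exact Nat.Coprime.mul_dvd_of_dvd_of_dvd ((Nat.Prime.coprime_iff_not_dvd hqp).2 hnd)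
        (hdv q hq) hbd
    · exact (((dvd_mul_right a b).mul_right c).mul_right e).mul_left q

lemma fam_sum (z k : ℕ) (hz : 1 ≤ z) (P : Finset ℕ) (hP : ∀ p ∈ P, p.Prime)
    (S : Fin 7 → Finset ℕ) (hSz : ∀ i, ∀ p ∈ S i, z ≤ p)
    (hcard : ∀ i, (S i).card = k) :
    ∑ d ∈ fam P S, (1 : ℝ) / d ≤ (k : ℝ) ^ 3 / z ^ 3 + 4 * (k : ℝ) ^ 4 / z ^ 4 +
      (∑ q ∈ P, (1 : ℝ) / q) * ((k : ℝ) ^ 4 / z ^ 4) := by
  classical
  have hzR : (0 : ℝ) < z := by exact_mod_cast hz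
  have hg : ∀ n : ℕ, (0 : ℝ) ≤ 1 / n := fun n => by positivity
  have h1 : ∑ d ∈ (S 0 ×ˢ S 1 ×ˢ S 2).image pr3, (1 : ℝ) / d ≤ (k : ℝ) ^ 3 / z ^ 3 := by
    refine le_trans (sum_image_le' _ _ (fun n => (1 : ℝ) / n) hg) ?_
    have h2 : ∀ x ∈ (S 0 ×ˢ S 1 ×ˢ S 2), (1 : ℝ) / (pr3 x : ℝ) ≤ 1 / (z : ℝ) ^ 3 := by
      rintro ⟨a, b, c⟩ hx
      simp only [Finset.mem_product] at hx
      have h1 := hSz 0 a hx.1
      have h2 := hSz 1 b hx.2.1
      have h3 := hSz 2 c hx.2.2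
      have h4 : z ^ 3 ≤ pr3 (a, b, c) := by
        calc z ^ 3 = z * z * z := by ring
          _ ≤ a * b * c := by gcongr
      have h5 : (z : ℝ) ^ 3 ≤ (pr3 (a, b, c) : ℝ) := by exact_mod_cast h4
      exact one_div_le_one_div_of_le (by positivity) h5
    refine le_trans (Finset.sum_le_card_nsmul _ _ _ h2) ?_
    rw [nsmul_eq_mul]
    simp only [Finset.card_product, hcard]
    push_cast
    apply le_of_eq
    ring
  have h2 : ∑ d ∈ (S 0 ×ˢ S 1 ×ˢ S 2 ×ˢ (S 3 ∪ (S 4 ∪ (S 5 ∪ S 6)))).image pr4, (1 : ℝ) / d ≤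
      4 * (k : ℝ) ^ 4 / z ^ 4 := by
    refine le_trans (sum_image_le' _ _ (fun n => (1 : ℝ) / n) hg) ?_
    have h2 : ∀ x ∈ (S 0 ×ˢ S 1 ×ˢ S 2 ×ˢ (S 3 ∪ (S 4 ∪ (S 5 ∪ S 6)))),
        (1 : ℝ) / (pr4 x : ℝ) ≤ 1 / (z : ℝ) ^ 4 := by
      rintro ⟨a, b, c, e⟩ hx
      simp only [Finset.mem_product, Finset.mem_union] at hx
      have h1 := hSz 0 a hx.1
      have h2 := hSz 1 b hx.2.1
      have h3 := hSz 2 c hx.2.2.1
      have h3' : z ≤ e := by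
        rcases hx.2.2.2 with h | h | h | h
        · exact hSz _ e h
        · exact hSz _ e h
        · exact hSz _ e h
        · exact hSz _ e h
      have h4 : z ^ 4 ≤ pr4 (a, b, c, e) := by
        calc z ^ 4 = z * z * z * z := by ring
          _ ≤ a * b * c * e := by gcongr
      have h5 : (z : ℝ) ^ 4 ≤ (pr4 (a, b, c, e) : ℝ) := by exact_mod_cast h4
      exact one_div_le_one_div_of_le (by positivity) h5
    refine le_trans (Finset.sum_le_card_nsmul _ _ _ h2) ?_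
    rw [nsmul_eq_mul]
    have hE : (S 3 ∪ (S 4 ∪ (S 5 ∪ S 6))).card ≤ 4 * k := by
      have h1 := Finset.card_union_le (S 3) (S 4 ∪ (S 5 ∪ S 6))
      have h2 := Finset.card_union_le (S 4) (S 5 ∪ S 6)
      have h3 := Finset.card_union_le (S 5) (S 6)
      rw [hcard] at h1 h2
      rw [hcard, hcard] at h3
      omega
    simp only [Finset.card_product, hcard]
    have hE' : ((S 3 ∪ (S 4 ∪ (S 5 ∪ S 6))).card : ℝ) ≤ 4 * k := by exact_mod_cast hE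
    push_cast
    calc (k : ℝ) * (k * (k * ((S 3 ∪ (S 4 ∪ (S 5 ∪ S 6))).card : ℝ))) * (1 / (z : ℝ) ^ 4) ≤
        (k : ℝ) * (k * (k * (4 * k))) * (1 / (z : ℝ) ^ 4) := by gcongr
      _ = 4 * (k : ℝ) ^ 4 / z ^ 4 := by ring
  have h3 : ∑ d ∈ ((P ×ˢ (S 3 ×ˢ S 4 ×ˢ S 5 ×ˢ S 6)).filter (fun x => ¬ x.1 ∣ pr4 x.2)).image
      (fun x => x.1 * pr4 x.2), (1 : ℝ) / d ≤ (∑ q ∈ P, (1 : ℝ) / q) * ((k : ℝ) ^ 4 / z ^ 4) := by
    refine le_trans (sum_image_le' _ _ (fun n => (1 : ℝ) / n) hg) ?_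
    refine le_trans (Finset.sum_le_sum_of_subset_of_nonneg (Finset.filter_subset _ _)
      (fun i _ _ => hg _)) ?_
    rw [Finset.sum_product, Finset.sum_mul]
    refine Finset.sum_le_sum fun q hq => ?_
    have h2 : ∀ x ∈ (S 3 ×ˢ S 4 ×ˢ S 5 ×ˢ S 6),
        (1 : ℝ) / ((q * pr4 x : ℕ) : ℝ) ≤ 1 / q * (1 / (z : ℝ) ^ 4) := by
      rintro ⟨a, b, c, e⟩ hx
      simp only [Finset.mem_product] at hx
      have h1 := hSz _ a hx.1
      have h2 := hSz _ b hx.2.1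
      have h3 := hSz _ c hx.2.2.1
      have h3' := hSz _ e hx.2.2.2
      have h4 : z ^ 4 ≤ pr4 (a, b, c, e) := by
        calc z ^ 4 = z * z * z * z := by ring
          _ ≤ a * b * c * e := by gcongr
      have h5 : (z : ℝ) ^ 4 ≤ (pr4 (a, b, c, e) : ℝ) := by exact_mod_cast h4
      have hq0 : (0 : ℝ) < q := by exact_mod_cast (hP q hq).pos
      push_cast
      rw [one_div_mul_one_div]
      exact one_div_le_one_div_of_le (by positivity) (by gcongr)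
    refine le_trans (Finset.sum_le_card_nsmul _ _ _ h2) ?_
    rw [nsmul_eq_mul]
    simp only [Finset.card_product, hcard]
    push_cast
    apply le_of_eq
    ring
  unfold fam
  have hu : ∀ s t : Finset ℕ, ∑ d ∈ s ∪ t, (1 : ℝ) / d ≤ ∑ d ∈ s, (1 : ℝ) / d + ∑ d ∈ t, (1 : ℝ) / d := by
    intro s t
    have h := Finset.sum_union_inter (s₁ := s) (s₂ := t) (f := fun d : ℕ => (1 : ℝ) / d)
    have h' : (0 : ℝ) ≤ ∑ d ∈ s ∩ t, (1 : ℝ) / d := Finset.sum_nonneg fun d _ => hg d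
    linarith
  refine le_trans (hu _ _) ?_
  have h4 := hu ((S 0 ×ˢ S 1 ×ˢ S 2 ×ˢ (S 3 ∪ (S 4 ∪ (S 5 ∪ S 6)))).image pr4)
    (((P ×ˢ (S 3 ×ˢ S 4 ×ˢ S 5 ×ˢ S 6)).filter (fun x => ¬ x.1 ∣ pr4 x.2)).image
      (fun x => x.1 * pr4 x.2))
  linarith

end Pool.Agent.H57R3
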