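import Pool.Agent.H57R3.BlockMain

set_option autoImplicit false

namespace Pool.Agent.H57R3

open Finset

/-- the primes of `P` below `2 ^ i` -/
def below (P : Finset ℕ) (i : ℕ) : Finset ℕ := P.filter (fun p => p < 2 ^ i)

/-- the dyadic block `[2 ^ i, 2 ^ (i+1))` -/
def blk (P : Finset ℕ) (i : ℕ) : Finset ℕ := P.filter (fun p => 2 ^ i ≤ p ∧ p < 2 ^ (i + 1))

/-- harmonic weight of a rich block, zero for a poor block -/
noncomputable def wt (P : Finset ℕ) (i : ℕ) : ℝ :=
  if 7 * 2 ^ (i - i / 8) ≤ (blk P i).card then ∑ p ∈ blk P i, (1 : ℝ) / p else 0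

lemma num1 (j : ℕ) (hj : 20 ≤ j) : 8192 * (8 * j + 7) ≤ 4 ^ j := by
  induction j, hj using Nat.le_induction with
  | base => norm_num
  | succ j hj ih =>
    rw [pow_succ]
    omega

lemma num2 (j : ℕ) (hj : 20 ≤ j) : 8 * j + 9 ≤ 2 ^ j := by
  induction j, hj using Nat.le_induction with
  | base => norm_num
  | succ j hj ih =>
    rw [pow_succ]
    omega

theorem main_induction (P : Finset ℕ) (hP : ∀ p ∈ P, p.Prime) (I : ℕ) (m : ℕ) :
    ∀ i : ℕ, i + m = I → 160 ≤ i → ∀ a : ℕ,
      1 / ((2 : ℝ) ^ (i / 8)) ^ 2 ≤ (a : ℝ) / ((∏ q ∈ below P i, q : ℕ) : ℝ) →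
      (a : ℝ) / ((∏ q ∈ below P i, q : ℕ) : ℝ) ≤ (1 / 4) * ∑ j ∈ Finset.Ico i I, wt P j →
      ∃ D : Finset ℕ, (∀ d ∈ D, d ∣ ∏ q ∈ below P I, q) ∧ (∀ d ∈ D, ∃ p ∈ P, 2 ^ i ≤ p ∧ p ∣ d) ∧
        ∑ d ∈ D, (1 : ℝ) / d = (a : ℝ) / ((∏ q ∈ below P i, q : ℕ) : ℝ) := by
  classical
  induction m with
  | zero =>
    intro i hi _ a h1 h2
    exfalso
    have : i = I := by omega
    subst this
    simp only [Finset.Ico_self, Finset.sum_empty, mul_zero] at h2
    have h3 : (0 : ℝ) < 1 / ((2 : ℝ) ^ (i / 8)) ^ 2 := by positivity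
    linarith
  | succ m ih =>
    intro i hi hi0 a h1 h2
    -- numerics
    set u : ℕ := 2 ^ (i / 8) with hu
    set k : ℕ := 2 ^ (i - i / 8) with hk
    set z : ℕ := 2 ^ i with hz
    have hj : 20 ≤ i / 8 := by omega
    have hij : i ≤ 8 * (i / 8) + 7 := by omega
    have hzuk : z = u * k := by
      rw [hz, hu, hk, ← pow_add]
      congr 1
      omega
    have huk : u ^ 7 ≤ k := by
      rw [hu, hk, ← pow_mul]
      exact Nat.pow_le_pow_right (by norm_num) (by omega)
    have hu64 : 64 ≤ u := by
      calc 64 ≤ 2 ^ 20 := by norm_num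
        _ ≤ u := Nat.pow_le_pow_right (by norm_num) hj
    have hiu : 8192 * i ≤ u ^ 2 := by
      have h3 := num1 (i / 8) hj
      have h4 : u ^ 2 = 4 ^ (i / 8) := by
        rw [hu, ← pow_mul, mul_comm, pow_mul]; norm_num
      rw [h4]
      omega
    have hiu2 : i + 2 ≤ u := by
      have h3 := num2 (i / 8) hj
      omega
    have huR : (64 : ℝ) ≤ u := by exact_mod_cast hu64
    have hu0 : (0 : ℝ) < u := by linarith
    have hk0 : 0 < k := by positivity
    have hk0R : (0 : ℝ) < k := by exact_mod_cast hk0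
    have hzR : (z : ℝ) = u * k := by exact_mod_cast hzuk
    have hz0 : (0 : ℝ) < z := by rw [hzR]; positivity
    have hukR : (u : ℝ) ^ 7 ≤ k := by exact_mod_cast huk
    -- products
    set N0 : ℕ := ∏ q ∈ below P i, q with hN0
    set N1 : ℕ := ∏ q ∈ below P (i + 1), q with hN1
    have hb01 : below P i ⊆ below P (i + 1) := by
      intro p hp
      simp only [below, Finset.mem_filter] at hp ⊢
      refine ⟨hp.1, hp.2.trans_le ?_⟩
      exact Nat.pow_le_pow_right (by norm_num) (by omega)
    have hbP : ∀ j, below P j ⊆ P := fun j => Finset.filter_subset _ _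
    have hN01 : N0 ∣ N1 := Finset.prod_dvd_prod_of_subset _ _ _ hb01
    have hN1I : N1 ∣ ∏ q ∈ below P I, q := by
      refine Finset.prod_dvd_prod_of_subset _ _ _ ?_
      intro p hp
      simp only [below, Finset.mem_filter] at hp ⊢
      refine ⟨hp.1, hp.2.trans_le ?_⟩
      exact Nat.pow_le_pow_right (by norm_num) (by omega)
    have hN0pos : 0 < N0 := Finset.prod_pos fun q hq => (hP q (hbP _ hq)).pos
    have hN1pos : 0 < N1 := Finset.prod_pos fun q hq => (hP q (hbP _ hq)).pos
    have hN0R : (0 : ℝ) < N0 := by exact_mod_cast hN0pos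
    have hN1R : (0 : ℝ) < N1 := by exact_mod_cast hN1pos
    obtain ⟨c, hc⟩ := hN01
    have hc0 : 0 < c := by
      rcases Nat.eq_zero_or_pos c with h | h
      · rw [h, mul_zero] at hc; omega
      · exact h
    have hcR : (0 : ℝ) < c := by exact_mod_cast hc0
    have hcR2 : (N1 : ℝ) = N0 * c := by exact_mod_cast hc
    have hta : ((a * c : ℕ) : ℝ) / N1 = (a : ℝ) / N0 := by
      rw [hcR2]; push_cast; field_simp
    have huu : 1 / ((2 : ℝ) ^ ((i + 1) / 8)) ^ 2 ≤ 1 / (u : ℝ) ^ 2 := by
      apply one_div_le_one_div_of_le (by positivity)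
      have h3 : (u : ℝ) ≤ (2 : ℝ) ^ ((i + 1) / 8) := by
        rw [hu]
        push_cast
        exact pow_le_pow_right₀ (by norm_num) (by omega)
      exact pow_le_pow_left₀ hu0.le h3 2
    have h1' : 1 / (u : ℝ) ^ 2 ≤ (a : ℝ) / N0 := by
      have : ((2 : ℝ) ^ (i / 8)) = (u : ℝ) := by rw [hu]; push_cast; rfl
      rw [this] at h1
      exact h1
    have hsum : ∑ j ∈ Finset.Ico i I, wt P j = wt P i + ∑ j ∈ Finset.Ico (i + 1) I, wt P j :=
      Finset.sum_eq_sum_Ico_succ_bot (by omega) _
    rw [hsum] at h2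
    by_cases hrich : 7 * 2 ^ (i - i / 8) ≤ (blk P i).card
    swap
    · -- poor block
      have hw : wt P i = 0 := by unfold wt; rw [if_neg hrich]
      rw [hw, zero_add] at h2
      obtain ⟨D, hD1, hD2, hD3⟩ := ih (i + 1) (by omega) (by omega) (a * c)
        (by rw [hta]; exact huu.trans h1') (by rw [hta]; exact h2)
      refine ⟨D, hD1, fun d hd => ?_, ?_⟩
      · obtain ⟨p, hp1, hp2, hp3⟩ := hD2 d hd
        refine ⟨p, hp1, le_trans ?_ hp2, hp3⟩
        exact Nat.pow_le_pow_right (by norm_num) (by omega)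
      · rw [hD3, ← hta]
    · -- rich block
      have hw : wt P i = ∑ p ∈ blk P i, (1 : ℝ) / p := by unfold wt; rw [if_pos hrich]
      have hPb : ∀ p ∈ below P (i + 1), p.Prime := fun p hp => hP p (hbP _ hp)
      have hPb2 : ∀ p ∈ below P (i + 1), p < 2 * z := by
        intro p hp
        simp only [below, Finset.mem_filter] at hp
        rw [hz]
        have := hp.2
        rw [pow_succ] at this
        omega
      have hBeq : (below P (i + 1)).filter (fun p => z ≤ p) = blk P i := by
        ext p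
        simp only [below, blk, Finset.mem_filter, hz]
        tauto
      have hB : 7 * k ≤ ((below P (i + 1)).filter (fun p => z ≤ p)).card := by
        rw [hBeq]; exact hrich
      have hblock := block i z u k hz hzuk huk hu64 hiu hiu2 (below P (i + 1)) hPb hPb2 hB
      rw [hBeq, ← hN1, ← hw] at hblock
      set s : ℝ := wt P i with hs
      -- lower bound for s
      have hslow : 7 / (2 * (u : ℝ)) ≤ s := by
        rw [hw]
        have h3 : ((blk P i).card : ℝ) * (1 / (2 * z)) ≤ ∑ p ∈ blk P i, (1 : ℝ) / p := by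
          rw [← nsmul_eq_mul]
          refine Finset.card_nsmul_le_sum _ _ _ fun p hp => ?_
          simp only [blk, Finset.mem_filter] at hp
          have hp0 : (0 : ℝ) < p := by exact_mod_cast (hP p hp.1).pos
          have hp2 : (p : ℝ) ≤ 2 * z := by
            have : p ≤ 2 * z := by
              have := hp.2.2
              rw [pow_succ] at this
              rw [hz]; omega
            exact_mod_cast this
          exact one_div_le_one_div_of_le hp0 hp2
        refine le_trans ?_ h3
        have h4 : (7 : ℝ) * k ≤ (blk P i).card := by exact_mod_cast hrich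
        calc 7 / (2 * (u : ℝ)) = 7 * k * (1 / (2 * z)) := by rw [hzR]; field_simp
          _ ≤ _ := by gcongr
      have hN1z : (z : ℝ) ≤ N1 := by
        have hne : (blk P i).Nonempty := by
          rw [← Finset.card_pos]
          have : 0 < 7 * 2 ^ (i - i / 8) := by positivity
          omega
        obtain ⟨p, hp⟩ := hne
        simp only [blk, Finset.mem_filter] at hp
        have h3 : p ∣ N1 := by
          refine Finset.dvd_prod_of_mem _ ?_
          simp only [below, Finset.mem_filter]
          exact ⟨hp.1, hp.2.2⟩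
        have h4 := Nat.le_of_dvd hN1pos h3
        have : z ≤ N1 := le_trans hp.2.1 h4
        exact_mod_cast this
      have hinv : 1 / (N1 : ℝ) ≤ s / 8 := by
        have h3 : 1 / (N1 : ℝ) ≤ 1 / z := one_div_le_one_div_of_le hz0 hN1z
        have h4 : 1 / (z : ℝ) ≤ 7 / (16 * u) := by
          rw [div_le_div_iff₀ hz0 (by positivity), hzR]
          have h5 : (16 : ℝ) ≤ k := by
            calc (16 : ℝ) ≤ 64 := by norm_num
              _ ≤ u := huR
              _ = (u : ℝ) ^ 1 := (pow_one _).symm
              _ ≤ (u : ℝ) ^ 7 := pow_le_pow_right₀ (by linarith) (by norm_num)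
              _ ≤ k := hukR
          nlinarith
        have h6 : 7 / (16 * (u : ℝ)) = 7 / (2 * (u : ℝ)) / 8 := by field_simp; norm_num
        rw [h6] at h4
        linarith
      by_cases hcase : (a : ℝ) / N0 ≤ s / 2
      · obtain ⟨D, hD1, hD2, hD3⟩ := hblock (a * c) (by rw [hta]; exact h1') (by rw [hta]; exact hcase)
        refine ⟨D, fun d hd => (hD1 d hd).trans hN1I, fun d hd => ?_, by rw [hD3, hta]⟩
        obtain ⟨p, hp1, hp2, hp3⟩ := hD2 d hd
        exact ⟨p, hbP _ hp1, hp2, hp3⟩
      · push Not at hcase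
        set b : ℕ := ⌈s / 4 * N1⌉₊ with hb
        have hs0 : 0 < s := lt_of_lt_of_le (by positivity) hslow
        have hb1 : s / 4 ≤ (b : ℝ) / N1 := by
          rw [le_div_iff₀ hN1R]
          exact Nat.le_ceil _
        have hb2 : (b : ℝ) / N1 ≤ s / 4 + 1 / N1 := by
          rw [div_le_iff₀ hN1R]
          have h3 := (Nat.ceil_lt_add_one (show 0 ≤ s / 4 * N1 by positivity)).le
          calc (b : ℝ) ≤ s / 4 * N1 + 1 := h3
            _ = (s / 4 + 1 / N1) * N1 := by field_simp
        have hu1 : 1 / (u : ℝ) ^ 2 ≤ s / 8 := by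
          have h6 : 7 / (16 * (u : ℝ)) = 7 / (2 * (u : ℝ)) / 8 := by field_simp; norm_num
          have h7 : 1 / (u : ℝ) ^ 2 ≤ 7 / (16 * (u : ℝ)) := by
            rw [div_le_div_iff₀ (by positivity) (by positivity)]
            nlinarith
          rw [h6] at h7
          linarith
        obtain ⟨D1, hD11, hD12, hD13⟩ := hblock b (by linarith) (by linarith)
        have hba : b ≤ a * c := by
          have h3 : (b : ℝ) / N1 ≤ ((a * c : ℕ) : ℝ) / N1 := by
            rw [hta]; linarith
          rw [div_le_div_iff_of_pos_right hN1R] at h3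
          exact_mod_cast h3
        have hsub : (((a * c - b : ℕ)) : ℝ) / N1 = (a : ℝ) / N0 - (b : ℝ) / N1 := by
          rw [Nat.cast_sub hba, sub_div, hta]
        obtain ⟨D2, hD21, hD22, hD23⟩ := ih (i + 1) (by omega) (by omega) (a * c - b)
          (by rw [hsub]; linarith) (by rw [hsub]; linarith)
        have hdisj : Disjoint D1 D2 := by
          rw [Finset.disjoint_left]
          intro d hd1 hd2
          obtain ⟨p, hp1, hp2, hp3⟩ := hD22 d hd2
          have h3 := hp3.trans (hD11 d hd1)
          have hpp := hP p hp1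
          rw [hN1, Prime.dvd_finsetProd_iff hpp.prime] at h3
          obtain ⟨q, hq, hpq⟩ := h3
          have hqq := hPb q hq
          have h4 := (Nat.prime_dvd_prime_iff_eq hpp hqq).1 hpq
          simp only [below, Finset.mem_filter] at hq
          omega
        refine ⟨D1 ∪ D2, ?_, ?_, ?_⟩
        · intro d hd
          rcases Finset.mem_union.1 hd with h | h
          · exact (hD11 d h).trans hN1I
          · exact hD21 d h
        · intro d hd
          rcases Finset.mem_union.1 hd with h | h
          · obtain ⟨p, hp1, hp2, hp3⟩ := hD12 d h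
            exact ⟨p, hbP _ hp1, hp2, hp3⟩
          · obtain ⟨p, hp1, hp2, hp3⟩ := hD22 d h
            refine ⟨p, hp1, le_trans ?_ hp2, hp3⟩
            exact Nat.pow_le_pow_right (by norm_num) (by omega)
        · rw [Finset.sum_union hdisj, hD13, hD23, hsub]
          ring

end Pool.Agent.H57R3
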