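import Mathlib

set_option autoImplicit false

namespace Pool.Agent.H57R3

open Finset

/-- squared distance to the nearest integer -/
noncomputable def dn (x : ℝ) : ℝ := (x - round x) ^ 2

lemma dn_nonneg (x : ℝ) : 0 ≤ dn x := sq_nonneg _

lemma abs_cos_pi_le (x : ℝ) : |Real.cos (Real.pi * x)| ≤ Real.exp (-2 * dn x) := by
  have h1 : |Real.cos (Real.pi * x)| = |Real.cos (Real.pi * (x - round x))| := by
    have h := Real.cos_sub_int_mul_pi (Real.pi * x) (round x)
    have h2 : Real.pi * (x - round x) = Real.pi * x - (round x : ℝ) * Real.pi := by ring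
    rw [h2, h, abs_mul]
    rcases Int.even_or_odd (round x) with he | ho
    · rw [he.neg_one_zpow]; simp
    · rw [ho.neg_one_zpow]; simp
  rw [h1]
  set v := x - round x with hv
  have hv2 : |v| ≤ 1 / 2 := abs_sub_round x
  have hpi := Real.pi_pos
  have hcos0 : 0 ≤ Real.cos (Real.pi * v) := by
    apply Real.cos_nonneg_of_neg_pi_div_two_le_of_le
    · have := (abs_le.1 hv2).1
      nlinarith
    · have := (abs_le.1 hv2).2
      nlinarith
  rw [abs_of_nonneg hcos0]
  have hq := Real.cos_le_one_sub_mul_cos_sq (x := Real.pi * v) (by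
    rw [abs_mul, abs_of_pos hpi]; nlinarith)
  have h3 : 1 - 2 / Real.pi ^ 2 * (Real.pi * v) ^ 2 = 1 - 2 * v ^ 2 := by
    field_simp
  rw [h3] at hq
  have h4 := Real.add_one_le_exp (-2 * dn x)
  unfold dn at h4 ⊢
  rw [← hv] at h4 ⊢
  linarith

lemma geom_zero (N : ℕ) (hN : 0 < N) (M m : ℤ) (hm : ¬ (N : ℤ) ∣ m) :
    ∑ h ∈ Finset.Ico M (M + N), Complex.exp (2 * Real.pi * Complex.I * (h * (m / N))) = 0 := by
  have himg : Finset.Ico M (M + N) = (Finset.range N).image (fun j : ℕ => M + (j : ℤ)) := by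
    ext x
    simp only [Finset.mem_Ico, Finset.mem_image, Finset.mem_range]
    constructor
    · rintro ⟨h1, h2⟩
      exact ⟨(x - M).toNat, by omega, by omega⟩
    · rintro ⟨j, hj, rfl⟩
      omega
  rw [himg, Finset.sum_image (by intro a _ b _ hab; simpa using hab)]
  set ζ := Complex.exp (2 * Real.pi * Complex.I * (m / N)) with hζ
  have hN' : (N : ℂ) ≠ 0 := by exact_mod_cast hN.ne'
  have h1 : ∀ j ∈ Finset.range N,
      Complex.exp (2 * Real.pi * Complex.I * (((M + (j : ℤ) : ℤ) : ℂ) * (m / N))) =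
      Complex.exp (2 * Real.pi * Complex.I * (M * (m / N))) * ζ ^ j := by
    intro j _
    rw [hζ, ← Complex.exp_nat_mul, ← Complex.exp_add]
    congr 1
    push_cast
    ring
  rw [Finset.sum_congr rfl h1, ← Finset.mul_sum]
  have hζN : ζ ^ N = 1 := by
    rw [hζ, ← Complex.exp_nat_mul]
    rw [Complex.exp_eq_one_iff]
    exact ⟨m, by field_simp⟩
  have hζ1 : ζ ≠ 1 := by
    intro h
    rw [hζ, Complex.exp_eq_one_iff] at h
    obtain ⟨n, hn⟩ := h
    have hpi : (2 * Real.pi * Complex.I : ℂ) ≠ 0 := by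
      simp [Real.pi_ne_zero, Complex.I_ne_zero]
    have h2 : (m : ℂ) / N = n := by
      have : (2 * Real.pi * Complex.I : ℂ) * ((m : ℂ) / N) = (2 * Real.pi * Complex.I) * n := by
        rw [hn]; ring
      exact mul_left_cancel₀ hpi this
    rw [div_eq_iff hN'] at h2
    have h3 : m = n * N := by exact_mod_cast h2
    exact hm ⟨n, by rw [h3]; ring⟩
  have hg := geom_sum_eq hζ1 N
  rw [hg, hζN]
  simp

lemma one_add_exp (u : ℝ) : (1 : ℂ) + Complex.exp (2 * Real.pi * Complex.I * u) =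
    2 * (Real.cos (Real.pi * u) : ℂ) * Complex.exp (Real.pi * Complex.I * u) := by
  rw [Complex.ofReal_cos, Complex.cos]
  have h : (2 * Real.pi * Complex.I * u : ℂ) = Real.pi * Complex.I * u + Real.pi * Complex.I * u := by
    ring
  rw [h, Complex.exp_add]
  push_cast
  have h2 : (Real.pi * u * Complex.I : ℂ) = Real.pi * Complex.I * u := by ring
  have h3 : (-(Real.pi * u) * Complex.I : ℂ) = -(Real.pi * Complex.I * u) := by ring
  rw [h2, h3, Complex.exp_neg]
  field_simp
  ring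

theorem fourier (A : Finset ℕ) (N : ℕ) (hN : 0 < N) (hA : ∀ d ∈ A, d ∣ N) (a M : ℤ)
    (hno : ∀ D ⊆ A, ¬ (N : ℤ) ∣ (∑ d ∈ D, ((N / d : ℕ) : ℤ)) - a) :
    ∑ h ∈ Finset.Ico M (M + N),
      Real.cos (2 * Real.pi * (h * ((∑ d ∈ A, (1 : ℝ) / d) / 2 - a / N))) *
        ∏ d ∈ A, Real.cos (Real.pi * (h / d)) = 0 := by
  have hN' : (N : ℂ) ≠ 0 := by exact_mod_cast hN.ne'
  -- the complex sum
  have key : ∑ h ∈ Finset.Ico M (M + N),
      Complex.exp (2 * Real.pi * Complex.I * (h * (-a / N))) *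
        ∏ d ∈ A, ((1 : ℂ) + Complex.exp (2 * Real.pi * Complex.I * ((h / d : ℝ) : ℂ))) = 0 := by
    have h1 : ∀ h ∈ Finset.Ico M (M + N),
        Complex.exp (2 * Real.pi * Complex.I * (h * (-a / N))) *
        ∏ d ∈ A, ((1 : ℂ) + Complex.exp (2 * Real.pi * Complex.I * ((h / d : ℝ) : ℂ))) =
        ∑ D ∈ A.powerset, Complex.exp (2 * Real.pi * Complex.I *
          (h * (((((∑ d ∈ D, ((N / d : ℕ) : ℤ)) - a : ℤ)) : ℂ) / N))) := by
      intro h _
      rw [Finset.prod_one_add, Finset.mul_sum]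
      refine Finset.sum_congr rfl fun D hD => ?_
      rw [Finset.mem_powerset] at hD
      rw [← Complex.exp_sum, ← Complex.exp_add]
      congr 1
      rw [← Finset.mul_sum, Int.cast_sub, Int.cast_sum]
      simp only [Int.cast_natCast, Complex.ofReal_div, Complex.ofReal_intCast,
        Complex.ofReal_natCast]
      have h2 : (∑ d ∈ D, (h : ℂ) / (d : ℂ)) = h * ((∑ d ∈ D, (((N / d : ℕ) : ℂ))) / N) := by
        rw [Finset.sum_div, Finset.mul_sum]
        refine Finset.sum_congr rfl fun d hd => ?_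
        have hdN := hA d (hD hd)
        have hd0 : (d : ℂ) ≠ 0 := by
          have : d ≠ 0 := by rintro rfl; simp at hdN; omega
          exact_mod_cast this
        rw [Nat.cast_div hdN hd0]
        field_simp
      rw [h2]
      ring
    rw [Finset.sum_congr rfl h1, Finset.sum_comm]
    refine Finset.sum_eq_zero fun D hD => ?_
    rw [Finset.mem_powerset] at hD
    exact geom_zero N hN M _ (hno D hD)
  have h2 : ∀ h ∈ Finset.Ico M (M + N),
      Complex.exp (2 * Real.pi * Complex.I * (h * (-a / N))) *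
        ∏ d ∈ A, ((1 : ℂ) + Complex.exp (2 * Real.pi * Complex.I * ((h / d : ℝ) : ℂ))) =
      (2 : ℂ) ^ A.card * (((∏ d ∈ A, Real.cos (Real.pi * (h / d)) : ℝ) : ℂ) *
        Complex.exp (((2 * Real.pi * (h * ((∑ d ∈ A, (1 : ℝ) / d) / 2 - a / N)) : ℝ) : ℂ)
          * Complex.I)) := by
    intro h _
    have h3 : ∀ d ∈ A, ((1 : ℂ) + Complex.exp (2 * Real.pi * Complex.I * ((h / d : ℝ) : ℂ))) =
        2 * ((Real.cos (Real.pi * (h / d)) : ℂ) * Complex.exp (Real.pi * Complex.I * ((h / d : ℝ) : ℂ))) := by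
      intro d _
      rw [one_add_exp (h / d)]
      ring
    rw [Finset.prod_congr rfl h3, Finset.prod_mul_distrib, Finset.prod_mul_distrib,
      Finset.prod_const, ← Complex.exp_sum]
    have h4 : Complex.exp (2 * Real.pi * Complex.I * (h * (-a / N))) *
        Complex.exp (∑ d ∈ A, (Real.pi * Complex.I * ((h / d : ℝ) : ℂ))) =
        Complex.exp (((2 * Real.pi * (h * ((∑ d ∈ A, (1 : ℝ) / d) / 2 - a / N)) : ℝ) : ℂ)
          * Complex.I) := by
      rw [← Complex.exp_add]
      congr 1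
      rw [← Finset.mul_sum]
      push_cast
      have h5 : (∑ d ∈ A, (h : ℂ) / (d : ℂ)) = h * (∑ d ∈ A, (1 : ℂ) / d) := by
        rw [Finset.mul_sum]
        refine Finset.sum_congr rfl fun d _ => ?_
        ring
      rw [h5]
      ring
    rw [← h4]
    push_cast
    ring
  rw [Finset.sum_congr rfl h2, ← Finset.mul_sum] at key
  have h6 : (2 : ℂ) ^ A.card ≠ 0 := pow_ne_zero _ two_ne_zero
  have h7 := (mul_eq_zero.1 key).resolve_left h6
  have h8 := congrArg Complex.re h7
  rw [Complex.re_sum] at h8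
  simp only [Complex.zero_re] at h8
  rw [← h8]
  refine Finset.sum_congr rfl fun h _ => ?_
  rw [Complex.re_ofReal_mul, Complex.exp_ofReal_mul_I_re]
  ring

end Pool.Agent.H57R3
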