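import Pool.Agent.H57R3.Struct

set_option autoImplicit false

namespace Pool.Agent.H57R3

open Finset

lemma exists_parts (k n : ℕ) : ∀ B : Finset ℕ, n * k ≤ B.card →
    ∃ S : Fin n → Finset ℕ, (∀ i, S i ⊆ B) ∧ (∀ i, (S i).card = k) ∧
      ∀ i j, i ≠ j → Disjoint (S i) (S j) := by
  induction n with
  | zero =>
    intro B _
    exact ⟨fun i => i.elim0, fun i => i.elim0, fun i => i.elim0, fun i => i.elim0⟩
  | succ n ih =>
    intro B hB
    have hk : k ≤ B.card := by nlinarith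
    obtain ⟨S0, hS0, hS0c⟩ := Finset.exists_subset_card_eq hk
    have hB' : n * k ≤ (B \ S0).card := by
      rw [Finset.card_sdiff_of_subset hS0, hS0c]
      have : (n + 1) * k = n * k + k := by ring
      omega
    obtain ⟨S, h1, h2, h3⟩ := ih _ hB'
    refine ⟨Fin.cons S0 S, ?_, ?_, ?_⟩
    · intro i
      refine Fin.cases ?_ (fun i => ?_) i
      · simpa using hS0
      · simpa using (h1 i).trans Finset.sdiff_subset
    · intro i
      refine Fin.cases ?_ (fun i => ?_) i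
      · simpa using hS0c
      · simpa using h2 i
    · intro i j
      refine Fin.cases ?_ (fun i => ?_) i
      · refine Fin.cases ?_ (fun j => ?_) j
        · intro h; exact absurd rfl h
        · intro _
          simp only [Fin.cons_zero, Fin.cons_succ]
          exact Finset.disjoint_of_subset_right (h1 j) Finset.disjoint_sdiff
      · refine Fin.cases ?_ (fun j => ?_) j
        · intro _
          simp only [Fin.cons_zero, Fin.cons_succ]
          exact Finset.disjoint_of_subset_left (h1 i) Finset.sdiff_disjoint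
        · intro h
          simp only [Fin.cons_succ]
          exact h3 i j (by rintro rfl; exact h rfl)

lemma greedy (f : ℕ → ℝ) (ε : ℝ) (τ : ℝ) (h0 : 0 ≤ τ) (hε : 0 ≤ ε) (B : Finset ℕ) :
    (∀ b ∈ B, f b ≤ ε) → τ ≤ ∑ b ∈ B, f b →
    ∃ G ⊆ B, τ - ε ≤ ∑ b ∈ G, f b ∧ ∑ b ∈ G, f b ≤ τ := by
  classical
  induction B using Finset.induction_on with
  | empty =>
    intro _ h
    simp only [Finset.sum_empty] at h
    exact ⟨∅, subset_rfl, by simp; linarith, by simpa using h0⟩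
  | insert b B hb ih =>
    intro hf h
    by_cases hle : τ ≤ ∑ b ∈ B, f b
    · obtain ⟨G, hG, h1, h2⟩ := ih (fun c hc => hf c (Finset.mem_insert_of_mem hc)) hle
      exact ⟨G, hG.trans (Finset.subset_insert _ _), h1, h2⟩
    · push Not at hle
      rw [Finset.sum_insert hb] at h
      have := hf b (Finset.mem_insert_self _ _)
      exact ⟨B, Finset.subset_insert _ _, by linarith, hle.le⟩

lemma sum_image_le' {ι : Type*} (T : Finset ι) (f : ι → ℕ) (g : ℕ → ℝ) (hg : ∀ n, 0 ≤ g n) :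
    ∑ d ∈ T.image f, g d ≤ ∑ t ∈ T, g (f t) := by
  classical
  induction T using Finset.induction_on with
  | empty => simp
  | insert a T ha ih =>
    rw [Finset.image_insert, Finset.sum_insert ha]
    by_cases h : f a ∈ T.image f
    · rw [Finset.insert_eq_of_mem h]
      linarith [hg (f a)]
    · rw [Finset.sum_insert h]
      linarith

/-- medium frequencies: `z/2 < |h| ≤ z²/2`, handled by single primes -/
lemma mid1 (z u : ℕ) (hu : 1 ≤ u) (hz : 8 * u ^ 2 ≤ z) (G A : Finset ℕ) (hGA : G ⊆ A)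
    (hGp : ∀ p ∈ G, p.Prime) (hGz : ∀ p ∈ G, z ≤ p) (hG2 : ∀ p ∈ G, p < 2 * z)
    (hGc : (z : ℝ) / (2 * u ^ 2) ≤ G.card) (h : ℤ) (h1 : (z : ℝ) / 2 < |(h : ℝ)|)
    (h2 : |(h : ℝ)| ≤ (z : ℝ) ^ 2 / 2) :
    (z : ℝ) / (4096 * u ^ 6) ≤ ∑ d ∈ A, dn ((h : ℝ) / d) := by
  classical
  have huR : (1 : ℝ) ≤ u := by exact_mod_cast hu
  have hzR : 8 * (u : ℝ) ^ 2 ≤ z := by exact_mod_cast hz
  have hu2 : (1 : ℝ) ≤ (u : ℝ) ^ 2 := one_le_pow₀ huR
  have hz8 : (8 : ℝ) ≤ z := by nlinarith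
  set ρ : ℝ := z / (16 * u ^ 2) with hρ
  have hρ0 : 0 < ρ := by positivity
  have hρz : ρ ≤ z / 16 := by
    rw [hρ]
    apply div_le_div_of_nonneg_left (by positivity) (by norm_num)
    nlinarith
  set bad : Finset ℕ := G.filter (fun p => |(h : ℝ) - nm h p| < ρ) with hbad
  have hinj : Set.InjOn (fun p : ℕ => nm h p) (bad : Set ℕ) := by
    intro p hp q hq hpq
    simp only [hbad, Finset.coe_filter, Set.mem_ofPred_eq] at hp hq
    by_contra hne
    have hpp := hGp p hp.1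
    have hqp := hGp q hq.1
    have hd1 : (p : ℤ) ∣ nm h p := dvd_nm h p
    have hd2 : (q : ℤ) ∣ nm h p := by
      have h3 : nm h p = nm h q := hpq
      rw [h3]; exact dvd_nm h q
    have hcop : Nat.Coprime p q := (Nat.coprime_primes hpp hqp).2 hne
    have hd3 : p * q ∣ (nm h p).natAbs :=
      Nat.Coprime.mul_dvd_of_dvd_of_dvd hcop (Int.natCast_dvd.1 hd1) (Int.natCast_dvd.1 hd2)
    have hv0 : (nm h p).natAbs ≠ 0 := by
      intro h0
      have h4 : nm h p = 0 := Int.natAbs_eq_zero.1 h0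
      have h5 := hp.2
      rw [h4] at h5
      simp only [Int.cast_zero, sub_zero] at h5
      linarith
    have hle := Nat.le_of_dvd (Nat.pos_of_ne_zero hv0) hd3
    have hzz : z * z ≤ (nm h p).natAbs :=
      le_trans (Nat.mul_le_mul (hGz p hp.1) (hGz q hq.1)) hle
    have h6 : (z : ℝ) * z ≤ |((nm h p : ℤ) : ℝ)| := by
      have : ((z * z : ℕ) : ℝ) ≤ ((nm h p).natAbs : ℝ) := by exact_mod_cast hzz
      rw [Nat.cast_natAbs] at this
      push_cast at this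
      exact this
    have h7 : |((nm h p : ℤ) : ℝ)| ≤ |(h : ℝ)| + ρ := by
      have h8 := abs_sub_abs_le_abs_sub ((nm h p : ℤ) : ℝ) (h : ℝ)
      rw [abs_sub_comm] at h8
      linarith [hp.2.le]
    nlinarith
  have hbc : (bad.card : ℝ) ≤ 2 * ρ + 1 := by
    have h3 : bad.image (fun p : ℕ => nm h p) ⊆ Finset.Icc (⌈(h : ℝ) - ρ⌉) (⌊(h : ℝ) + ρ⌋) := by
      intro v hv
      obtain ⟨p, hp, rfl⟩ := Finset.mem_image.1 hv
      simp only [hbad, Finset.mem_filter] at hp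
      have h4 := abs_lt.1 hp.2
      rw [Finset.mem_Icc]
      exact ⟨Int.ceil_le.2 (by linarith), Int.le_floor.2 (by linarith)⟩
    have h4 := Finset.card_le_card h3
    rw [Finset.card_image_of_injOn hinj, Int.card_Icc] at h4
    have h5 : ((⌊(h : ℝ) + ρ⌋ + 1 - ⌈(h : ℝ) - ρ⌉).toNat : ℝ) ≤ 2 * ρ + 1 := by
      have h6 : ((⌊(h : ℝ) + ρ⌋ + 1 - ⌈(h : ℝ) - ρ⌉ : ℤ) : ℝ) ≤ 2 * ρ + 1 := by
        push_cast
        have := Int.floor_le ((h : ℝ) + ρ)
        have := Int.le_ceil ((h : ℝ) - ρ)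
        linarith
      rcases le_total 0 (⌊(h : ℝ) + ρ⌋ + 1 - ⌈(h : ℝ) - ρ⌉) with h7 | h7
      · have h8 : ((⌊(h : ℝ) + ρ⌋ + 1 - ⌈(h : ℝ) - ρ⌉).toNat : ℤ) = ⌊(h : ℝ) + ρ⌋ + 1 - ⌈(h : ℝ) - ρ⌉ :=
          Int.toNat_of_nonneg h7
        have h9 : (((⌊(h : ℝ) + ρ⌋ + 1 - ⌈(h : ℝ) - ρ⌉).toNat : ℤ) : ℝ) =
            ((⌊(h : ℝ) + ρ⌋ + 1 - ⌈(h : ℝ) - ρ⌉ : ℤ) : ℝ) := by rw [h8]
        rw [Int.cast_natCast] at h9
        rw [h9]
        exact h6
      · rw [Int.toNat_of_nonpos h7]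
        push_cast
        linarith
    exact le_trans (by exact_mod_cast h4) h5
  set good : Finset ℕ := G \ bad with hgood
  have hgc : (z : ℝ) / (4 * u ^ 2) ≤ good.card := by
    have h3 : good.card + bad.card = G.card :=
      Finset.card_sdiff_add_card_eq_card (Finset.filter_subset _ _)
    have h4 : (good.card : ℝ) + bad.card = G.card := by exact_mod_cast h3
    have h5 : 2 * ρ + 1 ≤ z / (4 * u ^ 2) := by
      have h6 : 2 * ρ = z / (8 * u ^ 2) := by rw [hρ]; field_simp; norm_num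
      have h7 : (1 : ℝ) ≤ z / (8 * u ^ 2) := by
        rw [le_div_iff₀ (by positivity)]
        linarith
      have h8 : (z : ℝ) / (4 * u ^ 2) = z / (8 * u ^ 2) + z / (8 * u ^ 2) := by
        field_simp; norm_num
      rw [h6, h8]
      linarith
    have h9 : (z : ℝ) / (2 * u ^ 2) = z / (4 * u ^ 2) + z / (4 * u ^ 2) := by
      field_simp; norm_num
    linarith
  have hlow : ∀ p ∈ good, (1 / (1024 * (u : ℝ) ^ 4)) ≤ dn ((h : ℝ) / p) := by
    intro p hp
    simp only [hgood, hbad, Finset.mem_sdiff, Finset.mem_filter, not_and, not_lt] at hp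
    have hpG := hp.1
    have hpp := (hGp p hpG).pos
    have := dn_ge h p hpp (1 / (32 * (u : ℝ) ^ 2)) (by positivity) (by
      refine le_trans ?_ (hp.2 hpG)
      have hp2 : (p : ℝ) ≤ 2 * z := by exact_mod_cast (hG2 p hpG).le
      calc 1 / (32 * (u : ℝ) ^ 2) * (p : ℝ) ≤ 1 / (32 * (u : ℝ) ^ 2) * (2 * z) := by gcongr
        _ = ρ := by rw [hρ]; field_simp; norm_num)
    refine le_trans (le_of_eq ?_) this
    field_simp
    norm_num
  calc (z : ℝ) / (4096 * u ^ 6) = (z / (4 * u ^ 2)) * (1 / (1024 * (u : ℝ) ^ 4)) := by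
        field_simp; norm_num
    _ ≤ good.card * (1 / (1024 * (u : ℝ) ^ 4)) := by gcongr
    _ ≤ ∑ p ∈ good, dn ((h : ℝ) / p) := by
        rw [← nsmul_eq_mul]
        exact Finset.card_nsmul_le_sum _ _ _ hlow
    _ ≤ ∑ d ∈ A, dn ((h : ℝ) / d) := by
        refine Finset.sum_le_sum_of_subset_of_nonneg ?_ fun i _ _ => dn_nonneg _
        exact Finset.sdiff_subset.trans hGA

/-- medium frequencies: `z²/2 < |h| ≤ z³/4`, handled by products of three primes -/
lemma mid2 (z k : ℕ) (hz : 1 ≤ z) (P : Finset ℕ) (hP : ∀ p ∈ P, p.Prime)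
    (hP2 : ∀ p ∈ P, p < 2 * z)
    (S : Fin 7 → Finset ℕ) (hSP : ∀ i, S i ⊆ P) (hSz : ∀ i, ∀ p ∈ S i, z ≤ p)
    (hcard : ∀ i, (S i).card = k) (hdisj : ∀ i j, i ≠ j → Disjoint (S i) (S j))
    (A : Finset ℕ)
    (hA3 : ∀ c1 ∈ S 0, ∀ c2 ∈ S 1, ∀ c3 ∈ S 2, c1 * c2 * c3 ∈ A)
    (h : ℤ) (h1 : (z : ℝ) ^ 2 / 2 < |(h : ℝ)|) (h2 : |(h : ℝ)| ≤ (z : ℝ) ^ 3 / 4) :
    (k : ℝ) ^ 3 / (256 * z ^ 2) ≤ ∑ d ∈ A, dn ((h : ℝ) / d) := by
  classical
  have hprime : ∀ i, ∀ p ∈ S i, p.Prime := fun i p hp => hP p (hSP i hp)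
  have hlt : ∀ i, ∀ p ∈ S i, p < 2 * z := fun i p hp => hP2 p (hSP i hp)
  have hzR : (1 : ℝ) ≤ z := by exact_mod_cast hz
  set T : Finset (ℕ × ℕ × ℕ) := S 0 ×ˢ S 1 ×ˢ S 2 with hT
  have hTcard : T.card = k ^ 3 := by
    simp only [hT, Finset.card_product, hcard]; ring
  have hinj : Set.InjOn pr3 (T : Set _) := by
    rw [hT]
    exact inj3 (hprime 0) (hprime 1) (hprime 2) (hdisj _ _ (by decide)) (hdisj _ _ (by decide))
      (hdisj _ _ (by decide))
  have hle := sum_ge_of_inj A pr3 T hinj (by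
    rintro ⟨a, b, c⟩ hx
    simp only [hT, Finset.mem_product] at hx
    exact hA3 a hx.1 b hx.2.1 c hx.2.2) (fun d => dn ((h : ℝ) / d)) (fun d => dn_nonneg _)
  have hlow : ∀ x ∈ T, (1 / (256 * (z : ℝ) ^ 2)) ≤ dn ((h : ℝ) / (pr3 x : ℝ)) := by
    rintro ⟨a, b, c⟩ hx
    simp only [hT, Finset.mem_product] at hx
    obtain ⟨ha, hb, hc⟩ := hx
    have hup : (pr3 (a, b, c) : ℝ) ≤ 8 * (z : ℝ) ^ 3 := by
      have h1 : a ≤ 2 * z := (hlt 0 a ha).le
      have h2 : b ≤ 2 * z := (hlt 1 b hb).le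
      have h3 : c ≤ 2 * z := (hlt 2 c hc).le
      have h5 : pr3 (a, b, c) ≤ (2 * z) * (2 * z) * (2 * z) := by
        simp only [pr3]
        gcongr
      have h6 : (2 * z) * (2 * z) * (2 * z) = 8 * z ^ 3 := by ring
      rw [h6] at h5
      exact_mod_cast h5
    have hlo : (z : ℝ) ^ 3 ≤ (pr3 (a, b, c) : ℝ) := by
      have h1 := hSz 0 a ha
      have h2 := hSz 1 b hb
      have h3 := hSz 2 c hc
      have : z ^ 3 ≤ pr3 (a, b, c) := by
        calc z ^ 3 = z * z * z := by ring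
          _ ≤ a * b * c := by gcongr
      exact_mod_cast this
    have hpos : (0 : ℝ) < (pr3 (a, b, c) : ℝ) := lt_of_lt_of_le (by positivity) hlo
    have habs : |(h : ℝ) / (pr3 (a, b, c) : ℝ)| ≤ 1 / 4 := by
      rw [abs_div, abs_of_pos hpos, div_le_iff₀ hpos]
      linarith
    have hr : round ((h : ℝ) / (pr3 (a, b, c) : ℝ)) = 0 := by
      rw [round_eq_zero_iff]
      have := abs_le.1 habs
      constructor <;> linarith
    unfold dn
    rw [hr]
    simp only [Int.cast_zero, sub_zero]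
    rw [← sq_abs ((h : ℝ) / (pr3 (a, b, c) : ℝ)), abs_div, abs_of_pos hpos]
    have h3 : 1 / (16 * (z : ℝ)) ≤ |(h : ℝ)| / (pr3 (a, b, c) : ℝ) := by
      rw [le_div_iff₀ hpos]
      calc 1 / (16 * (z : ℝ)) * (pr3 (a, b, c) : ℝ) ≤ 1 / (16 * (z : ℝ)) * (8 * (z : ℝ) ^ 3) := by gcongr
        _ = (z : ℝ) ^ 2 / 2 := by field_simp; norm_num
        _ ≤ |(h : ℝ)| := h1.le
    calc (1 / (256 * (z : ℝ) ^ 2)) = (1 / (16 * (z : ℝ))) ^ 2 := by field_simp; norm_num
      _ ≤ _ := by gcongr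
  calc (k : ℝ) ^ 3 / (256 * z ^ 2) = T.card * (1 / (256 * (z : ℝ) ^ 2)) := by
        rw [hTcard]; push_cast; ring
    _ ≤ ∑ x ∈ T, dn ((h : ℝ) / (pr3 x : ℝ)) := by
        rw [← nsmul_eq_mul]
        exact Finset.card_nsmul_le_sum _ _ _ hlow
    _ ≤ _ := hle

end Pool.Agent.H57R3
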