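import Pool.Agent.H57R3.Fourier

set_option autoImplicit false

namespace Pool.Agent.H57R3

open Finset

lemma sum_ge_of_inj {ι : Type*} (A : Finset ℕ) (f : ι → ℕ) (T : Finset ι)
    (hinj : Set.InjOn f T) (hmem : ∀ t ∈ T, f t ∈ A) (g : ℕ → ℝ) (hg : ∀ n, 0 ≤ g n) :
    ∑ t ∈ T, g (f t) ≤ ∑ d ∈ A, g d := by
  classical
  rw [← Finset.sum_image (f := g) (g := f) hinj]
  refine Finset.sum_le_sum_of_subset_of_nonneg ?_ fun i _ _ => hg i
  intro d hd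
  obtain ⟨t, ht, rfl⟩ := Finset.mem_image.1 hd
  exact hmem t ht

/-- product of a triple -/
def pr3 (x : ℕ × ℕ × ℕ) : ℕ := x.1 * x.2.1 * x.2.2

/-- product of a quadruple -/
def pr4 (x : ℕ × ℕ × ℕ × ℕ) : ℕ := x.1 * x.2.1 * x.2.2.1 * x.2.2.2

lemma inj3 {S1 S2 S3 : Finset ℕ} (h1 : ∀ p ∈ S1, p.Prime) (h2 : ∀ p ∈ S2, p.Prime)
    (h3 : ∀ p ∈ S3, p.Prime) (d12 : Disjoint S1 S2) (d13 : Disjoint S1 S3)
    (d23 : Disjoint S2 S3) :
    Set.InjOn pr3 (S1 ×ˢ S2 ×ˢ S3 : Finset (ℕ × ℕ × ℕ)) := by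
  rintro ⟨a, b, c⟩ hx ⟨a', b', c'⟩ hy he
  simp only [Finset.coe_product, Set.mem_prod, Finset.mem_coe] at hx hy
  obtain ⟨ha, hb, hc⟩ := hx
  obtain ⟨ha', hb', hc'⟩ := hy
  simp only [pr3] at he
  have key : ∀ x y : ℕ, x.Prime → y.Prime → x ∣ y → x = y := fun x y hx hy h =>
    (Nat.prime_dvd_prime_iff_eq hx hy).1 h
  have e1 : a = a' := by
    have hd : a ∣ a' * b' * c' := by rw [← he, mul_assoc]; exact dvd_mul_right _ _
    rcases (h1 a ha).dvd_mul.1 hd with h | h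
    · rcases (h1 a ha).dvd_mul.1 h with h | h
      · exact key _ _ (h1 a ha) (h1 _ ha') h
      · exact absurd (key _ _ (h1 a ha) (h2 _ hb') h ▸ hb')
          (Finset.disjoint_left.1 d12 ha)
    · exact absurd (key _ _ (h1 a ha) (h3 _ hc') h ▸ hc') (Finset.disjoint_left.1 d13 ha)
  have e2 : b = b' := by
    have hd : b ∣ a' * b' * c' := by
      rw [← he]; exact (dvd_mul_left _ _).mul_right _
    rcases (h2 b hb).dvd_mul.1 hd with h | h
    · rcases (h2 b hb).dvd_mul.1 h with h | h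
      · exact absurd hb (Finset.disjoint_left.1 d12 (key _ _ (h2 b hb) (h1 _ ha') h ▸ ha'))
      · exact key _ _ (h2 b hb) (h2 _ hb') h
    · exact absurd (key _ _ (h2 b hb) (h3 _ hc') h ▸ hc') (Finset.disjoint_left.1 d23 hb)
  subst e1 e2
  have hpos : 0 < a * b := Nat.mul_pos (h1 a ha).pos (h2 b hb).pos
  have e3 := Nat.eq_of_mul_eq_mul_left hpos he
  rw [e3]

lemma inj4 {S1 S2 S3 S4 : Finset ℕ} (h1 : ∀ p ∈ S1, p.Prime) (h2 : ∀ p ∈ S2, p.Prime)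
    (h3 : ∀ p ∈ S3, p.Prime) (h4 : ∀ p ∈ S4, p.Prime) (d12 : Disjoint S1 S2)
    (d13 : Disjoint S1 S3) (d14 : Disjoint S1 S4) (d23 : Disjoint S2 S3) (d24 : Disjoint S2 S4)
    (d34 : Disjoint S3 S4) :
    Set.InjOn pr4 (S1 ×ˢ S2 ×ˢ S3 ×ˢ S4 : Finset (ℕ × ℕ × ℕ × ℕ)) := by
  rintro ⟨a, b, c, d⟩ hx ⟨a', b', c', d'⟩ hy he
  simp only [Finset.coe_product, Set.mem_prod, Finset.mem_coe] at hx hy
  obtain ⟨ha, hb, hc, hd⟩ := hx
  obtain ⟨ha', hb', hc', hd'⟩ := hy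
  simp only [pr4] at he
  have key : ∀ x y : ℕ, x.Prime → y.Prime → x ∣ y → x = y := fun x y hx hy h =>
    (Nat.prime_dvd_prime_iff_eq hx hy).1 h
  have e4 : d = d' := by
    have hdd : d ∣ a' * b' * c' * d' := by rw [← he]; exact dvd_mul_left _ _
    rcases (h4 d hd).dvd_mul.1 hdd with h | h
    · rcases (h4 d hd).dvd_mul.1 h with h | h
      · rcases (h4 d hd).dvd_mul.1 h with h | h
        · exact absurd hd (Finset.disjoint_left.1 d14 (key _ _ (h4 d hd) (h1 _ ha') h ▸ ha'))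
        · exact absurd hd (Finset.disjoint_left.1 d24 (key _ _ (h4 d hd) (h2 _ hb') h ▸ hb'))
      · exact absurd hd (Finset.disjoint_left.1 d34 (key _ _ (h4 d hd) (h3 _ hc') h ▸ hc'))
    · exact key _ _ (h4 d hd) (h4 _ hd') h
  subst e4
  have he' := Nat.eq_of_mul_eq_mul_right (h4 d hd).pos he
  have hi := inj3 h1 h2 h3 d12 d13 d23 (x₁ := (a, b, c)) (x₂ := (a', b', c'))
    (by simp [ha, hb, hc]) (by simp [ha', hb', hc']) he'
  simp only [Prod.mk.injEq] at hi ⊢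
  exact ⟨hi.1, hi.2.1, hi.2.2, trivial⟩

/-- two multiples of `c` that are both close to `h` coincide -/
lemma mult_unique {c : ℕ} {x y : ℤ} {h w : ℝ} (hx : (c : ℤ) ∣ x) (hy : (c : ℤ) ∣ y)
    (h1 : |h - x| ≤ w) (h2 : |h - y| ≤ w) (hw : 2 * w < c) : x = y := by
  have h3 : |(x : ℝ) - y| < c := by
    have := abs_sub_le (x : ℝ) h y
    rw [abs_sub_comm (x : ℝ) h] at this
    linarith
  have h4 : |x - y| < c := by exact_mod_cast h3
  have h5 := Int.eq_zero_of_abs_lt_dvd (dvd_sub hx hy) h4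
  linarith

/-- nearest multiple of `b` to `h` -/
noncomputable def nm (h : ℤ) (b : ℕ) : ℤ := round ((h : ℝ) / b) * b

lemma dvd_nm (h : ℤ) (b : ℕ) : (b : ℤ) ∣ nm h b := dvd_mul_left _ _

lemma dn_eq (h : ℤ) (b : ℕ) (hb : 0 < b) : dn ((h : ℝ) / b) = (((h : ℝ) - nm h b) / b) ^ 2 := by
  unfold dn nm
  have hb' : (b : ℝ) ≠ 0 := by exact_mod_cast hb.ne'
  congr 1
  push_cast
  field_simp

lemma dn_ge (h : ℤ) (b : ℕ) (hb : 0 < b) (w : ℝ) (hw : 0 ≤ w) (hh : w * b ≤ |(h : ℝ) - nm h b|) :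
    w ^ 2 ≤ dn ((h : ℝ) / b) := by
  rw [dn_eq h b hb, ← sq_abs (((h : ℝ) - nm h b) / b), abs_div]
  have hb' : (0 : ℝ) < b := by exact_mod_cast hb
  rw [abs_of_pos hb']
  apply pow_le_pow_left₀ hw
  rw [le_div_iff₀ hb']
  exact hh

theorem structural (z k : ℕ) (hz : 1 ≤ z) (hk : 1 ≤ k) (hkz : 16384 * z ^ 3 ≤ k ^ 4)
    (P : Finset ℕ) (hP : ∀ p ∈ P, p.Prime) (hP2 : ∀ p ∈ P, p < 2 * z)
    (S : Fin 7 → Finset ℕ) (hSP : ∀ i, S i ⊆ P) (hSz : ∀ i, ∀ p ∈ S i, z ≤ p)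
    (hcard : ∀ i, (S i).card = k) (hdisj : ∀ i j, i ≠ j → Disjoint (S i) (S j))
    (A : Finset ℕ)
    (hA4 : ∀ c1 ∈ S 0, ∀ c2 ∈ S 1, ∀ c3 ∈ S 2, ∀ i : Fin 7, 3 ≤ i → ∀ e ∈ S i,
      c1 * c2 * c3 * e ∈ A)
    (hA5 : ∀ q ∈ P, ∀ e1 ∈ S 3, ∀ e2 ∈ S 4, ∀ e3 ∈ S 5, ∀ e4 ∈ S 6,
      ¬ q ∣ e1 * e2 * e3 * e4 → q * (e1 * e2 * e3 * e4) ∈ A)
    (h : ℤ) (hΦ : ∑ d ∈ A, dn ((h : ℝ) / d) < 2 * z) :
    ∃ x : ℤ, (∀ q ∈ P, (q : ℤ) ∣ x) ∧ |(h : ℝ) - x| ≤ (z : ℝ) ^ 3 / 4 := by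
  classical
  have hprime : ∀ i, ∀ p ∈ S i, p.Prime := fun i p hp => hP p (hSP i hp)
  have hlt : ∀ i, ∀ p ∈ S i, p < 2 * z := fun i p hp => hP2 p (hSP i hp)
  have hzR : (1 : ℝ) ≤ z := by exact_mod_cast hz
  have hkR : (1 : ℝ) ≤ k := by exact_mod_cast hk
  have hkzR : 16384 * (z : ℝ) ^ 3 ≤ (k : ℝ) ^ 4 := by exact_mod_cast hkz
  -- the union of the last four sets
  set E : Finset ℕ := S 3 ∪ (S 4 ∪ (S 5 ∪ S 6)) with hE
  have hEmem : ∀ e ∈ E, ∃ i : Fin 7, 3 ≤ i ∧ e ∈ S i := by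
    intro e he
    simp only [hE, Finset.mem_union] at he
    rcases he with h | h | h | h
    · exact ⟨3, le_refl _, h⟩
    · exact ⟨4, by decide, h⟩
    · exact ⟨5, by decide, h⟩
    · exact ⟨6, by decide, h⟩
  have hEprime : ∀ p ∈ E, p.Prime := by
    intro e he
    obtain ⟨i, _, hi⟩ := hEmem e he
    exact hprime i e hi
  have hEz : ∀ p ∈ E, z ≤ p := by
    intro e he
    obtain ⟨i, _, hi⟩ := hEmem e he
    exact hSz i e hi
  have hElt : ∀ p ∈ E, p < 2 * z := by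
    intro e he
    obtain ⟨i, _, hi⟩ := hEmem e he
    exact hlt i e hi
  have hEdisj : ∀ i : Fin 7, i < 3 → Disjoint (S i) E := by
    intro i hi
    simp only [hE, Finset.disjoint_union_right]
    refine ⟨hdisj _ _ ?_, hdisj _ _ ?_, hdisj _ _ ?_, hdisj _ _ ?_⟩ <;>
      (rintro rfl; revert hi; decide)
  -- bad extensions of a triple
  set bad : ℕ × ℕ × ℕ → Finset ℕ := fun t =>
    E.filter (fun e => (z : ℝ) ^ 3 / 4 < |(h : ℝ) - nm h (pr3 t * e)|) with hbad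
  set T : Finset (ℕ × ℕ × ℕ) := S 0 ×ˢ S 1 ×ˢ S 2 with hT
  have hTcard : T.card = k ^ 3 := by
    simp only [hT, Finset.card_product, hcard]; ring
  have hstep1 : ∃ t ∈ T, 2 * (bad t).card ≤ k := by
    by_contra hcon
    push Not at hcon
    -- all bad pairs
    set Q : Finset ((_ : ℕ × ℕ × ℕ) × ℕ) := T.sigma bad with hQ
    have hinj : Set.InjOn (fun x : (_ : ℕ × ℕ × ℕ) × ℕ => pr3 x.1 * x.2) (Q : Set _) := by
      rintro ⟨⟨a, b, c⟩, e⟩ hx ⟨⟨a', b', c'⟩, e'⟩ hy hxy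
      simp only [hQ, hT, hbad, Finset.coe_sigma, Set.mem_sigma_iff, Finset.mem_coe,
        Finset.mem_product, Finset.mem_filter] at hx hy
      have := inj4 (hprime 0) (hprime 1) (hprime 2) hEprime (hdisj 0 1 (by decide))
        (hdisj 0 2 (by decide)) (hEdisj 0 (by decide)) (hdisj 1 2 (by decide))
        (hEdisj 1 (by decide)) (hEdisj 2 (by decide)) (x₁ := (a, b, c, e)) (x₂ := (a', b', c', e'))
        (by simp [hx.1, hx.2.1]) (by simp [hy.1, hy.2.1]) hxy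
      simp only [Prod.mk.injEq] at this
      obtain ⟨rfl, rfl, rfl, rfl⟩ := this
      rfl
    have hle := sum_ge_of_inj A (fun x : (_ : ℕ × ℕ × ℕ) × ℕ => pr3 x.1 * x.2) Q hinj (by
      rintro ⟨⟨a, b, c⟩, e⟩ hx
      simp only [hQ, hT, hbad, Finset.mem_sigma, Finset.mem_product, Finset.mem_filter] at hx
      obtain ⟨i, hi3, hi⟩ := hEmem e hx.2.1
      exact hA4 a hx.1.1 b hx.1.2.1 c hx.1.2.2 i hi3 e hi) (fun d => dn ((h : ℝ) / d))
      (fun d => dn_nonneg _)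
    have hlow : ∀ x ∈ Q, (1 / (4096 * (z : ℝ) ^ 2)) ≤ dn ((h : ℝ) / ((pr3 x.1 * x.2 : ℕ) : ℝ)) := by
      rintro ⟨⟨a, b, c⟩, e⟩ hx
      simp only [hQ, hT, hbad, Finset.mem_sigma, Finset.mem_product, Finset.mem_filter] at hx
      obtain ⟨⟨ha, hb, hc⟩, he, hx2⟩ := hx
      have hpos : 0 < pr3 (a, b, c) * e := by
        have h1 := (hprime 0 a ha).pos
        have h2 := (hprime 1 b hb).pos
        have h3 := (hprime 2 c hc).pos
        have h4 := (hEprime e he).pos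
        simp only [pr3]; positivity
      have hup : ((pr3 (a, b, c) * e : ℕ) : ℝ) ≤ 16 * (z : ℝ) ^ 4 := by
        have h1 : a ≤ 2 * z := (hlt 0 a ha).le
        have h2 : b ≤ 2 * z := (hlt 1 b hb).le
        have h3 : c ≤ 2 * z := (hlt 2 c hc).le
        have h4 : e ≤ 2 * z := (hElt e he).le
        have h5 : pr3 (a, b, c) * e ≤ (2 * z) * (2 * z) * (2 * z) * (2 * z) := by
          simp only [pr3]
          gcongr
        have h6 : (2 * z) * (2 * z) * (2 * z) * (2 * z) = 16 * z ^ 4 := by ring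
        rw [h6] at h5
        exact_mod_cast h5
      have := dn_ge h (pr3 (a, b, c) * e) hpos (1 / (64 * z)) (by positivity) (by
        refine le_trans ?_ hx2.le
        calc 1 / (64 * (z : ℝ)) * ((pr3 (a, b, c) * e : ℕ) : ℝ) ≤ 1 / (64 * (z : ℝ)) * (16 * (z : ℝ) ^ 4) := by
              gcongr
          _ = (z : ℝ) ^ 3 / 4 := by field_simp; ring)
      refine le_trans (le_of_eq ?_) this
      field_simp
      norm_num
    have hsum : (Q.card : ℝ) * (1 / (4096 * (z : ℝ) ^ 2)) ≤ ∑ d ∈ A, dn ((h : ℝ) / d) := by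
      refine le_trans ?_ hle
      rw [← nsmul_eq_mul]
      exact Finset.card_nsmul_le_sum _ _ _ hlow
    have hQcard : (k : ℝ) ^ 4 / 2 ≤ Q.card := by
      have h1 : Q.card = ∑ t ∈ T, (bad t).card := by
        rw [hQ, Finset.card_sigma]
      have h2 : ∑ _t ∈ T, k ≤ ∑ t ∈ T, 2 * (bad t).card :=
        Finset.sum_le_sum fun t ht => (hcon t ht).le
      rw [Finset.sum_const, smul_eq_mul, hTcard, ← Finset.mul_sum, ← h1] at h2
      have h3 : (k : ℝ) ^ 3 * k ≤ 2 * Q.card := by exact_mod_cast h2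
      nlinarith
    have h5 : (2 : ℝ) * z ≤ (Q.card : ℝ) * (1 / (4096 * (z : ℝ) ^ 2)) := by
      have h6 : 8192 * (z : ℝ) ^ 3 ≤ Q.card := by linarith
      calc (2 : ℝ) * z = 8192 * (z : ℝ) ^ 3 * (1 / (4096 * (z : ℝ) ^ 2)) := by field_simp; ring
        _ ≤ (Q.card : ℝ) * (1 / (4096 * (z : ℝ) ^ 2)) := by gcongr
    linarith
  obtain ⟨t, htT, htbad⟩ := hstep1
  obtain ⟨c1, c2, c3⟩ := t
  simp only [hT, Finset.mem_product] at htT
  obtain ⟨hc1, hc2, hc3⟩ := htT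
  set c : ℕ := pr3 (c1, c2, c3) with hc
  have hcz : z ^ 3 ≤ c := by
    have h1 := hSz 0 c1 hc1
    have h2 := hSz 1 c2 hc2
    have h3 := hSz 2 c3 hc3
    calc z ^ 3 = z * z * z := by ring
      _ ≤ c1 * c2 * c3 := by gcongr
  have hcz' : (z : ℝ) ^ 3 ≤ c := by exact_mod_cast hcz
  have hz3 : (0 : ℝ) < (z : ℝ) ^ 3 := by positivity
  -- good elements
  set X : Fin 7 → Finset ℕ := fun i => (S i).filter (fun e => |(h : ℝ) - nm h (c * e)| ≤ (z : ℝ) ^ 3 / 4)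
    with hX
  have hXcard : ∀ i : Fin 7, 3 ≤ i → k ≤ 2 * (X i).card := by
    intro i hi
    have h1 : (S i) \ (X i) ⊆ bad (c1, c2, c3) := by
      intro e he
      simp only [hX, Finset.mem_sdiff, Finset.mem_filter, not_and, not_le] at he
      simp only [hbad, Finset.mem_filter]
      refine ⟨?_, he.2 he.1⟩
      simp only [hE, Finset.mem_union]
      have he1 := he.1
      fin_cases i
      · exact absurd hi (by decide)
      · exact absurd hi (by decide)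
      · exact absurd hi (by decide)
      · exact Or.inl he1
      · exact Or.inr (Or.inl he1)
      · exact Or.inr (Or.inr (Or.inl he1))
      · exact Or.inr (Or.inr (Or.inr he1))
    have h2 := Finset.card_le_card h1
    have h3 : (X i).card + ((S i) \ (X i)).card = (S i).card := by
      rw [add_comm]
      exact Finset.card_sdiff_add_card_eq_card (Finset.filter_subset _ _)
    have h4 := hcard i
    omega
  obtain ⟨e0, he0⟩ : (X 3).Nonempty := by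
    rw [← Finset.card_pos]
    have := hXcard 3 (le_refl _)
    omega
  have he0' := (Finset.mem_filter.1 he0)
  set x : ℤ := nm h (c * e0) with hx
  have hcx : (c : ℤ) ∣ x := dvd_trans ⟨(e0 : ℤ), by push_cast; ring⟩ (dvd_nm h (c * e0))
  have hxh : |(h : ℝ) - x| ≤ (z : ℝ) ^ 3 / 4 := he0'.2
  have hXdvd : ∀ i, ∀ e ∈ X i, (e : ℤ) ∣ x := by
    intro i e he
    have he' := (Finset.mem_filter.1 he)
    have h1 : (c : ℤ) ∣ nm h (c * e) := dvd_trans ⟨(e : ℤ), by push_cast; ring⟩ (dvd_nm h (c * e))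
    have h2 : x = nm h (c * e) := mult_unique hcx h1 hxh he'.2 (by linarith)
    rw [h2]
    exact dvd_trans ⟨(c : ℤ), by push_cast; ring⟩ (dvd_nm h (c * e))
  refine ⟨x, ?_, hxh⟩
  intro q hq
  by_contra hqx
  have hqp := hP q hq
  set U : Finset (ℕ × ℕ × ℕ × ℕ) := X 3 ×ˢ X 4 ×ˢ X 5 ×ˢ X 6 with hU
  have hXS : ∀ i, X i ⊆ S i := fun i => Finset.filter_subset _ _
  have hbdvd : ∀ u ∈ U, ((pr4 u : ℕ) : ℤ) ∣ x := by
    rintro ⟨e1, e2, e3, e4⟩ hu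
    simp only [hU, Finset.mem_product] at hu
    obtain ⟨h1, h2, h3, h4⟩ := hu
    have hne : ∀ i j : Fin 7, i ≠ j → ∀ a ∈ X i, ∀ b ∈ X j, Nat.Coprime a b := by
      intro i j hij a ha b hb
      rw [Nat.coprime_primes (hprime i a (hXS i ha)) (hprime j b (hXS j hb))]
      rintro rfl
      exact Finset.disjoint_left.1 (hdisj i j hij) (hXS i ha) (hXS j hb)
    have d1 : e1 ∣ x.natAbs := Int.natCast_dvd.1 (hXdvd 3 e1 h1)
    have d2 : e2 ∣ x.natAbs := Int.natCast_dvd.1 (hXdvd 4 e2 h2)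
    have d3 : e3 ∣ x.natAbs := Int.natCast_dvd.1 (hXdvd 5 e3 h3)
    have d4 : e4 ∣ x.natAbs := Int.natCast_dvd.1 (hXdvd 6 e4 h4)
    rw [Int.natCast_dvd]
    have c12 := hne 3 4 (by decide) e1 h1 e2 h2
    have c13 := hne 3 5 (by decide) e1 h1 e3 h3
    have c14 := hne 3 6 (by decide) e1 h1 e4 h4
    have c23 := hne 4 5 (by decide) e2 h2 e3 h3
    have c24 := hne 4 6 (by decide) e2 h2 e4 h4
    have c34 := hne 5 6 (by decide) e3 h3 e4 h4
    have g1 := Nat.Coprime.mul_dvd_of_dvd_of_dvd c12 d1 d2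
    have g2 := Nat.Coprime.mul_dvd_of_dvd_of_dvd (Nat.Coprime.mul_left c13 c23) g1 d3
    have g3 := Nat.Coprime.mul_dvd_of_dvd_of_dvd
      (Nat.Coprime.mul_left (Nat.Coprime.mul_left c14 c24) c34) g2 d4
    exact g3
  have hqb : ∀ u ∈ U, ¬ q ∣ pr4 u := by
    intro u hu hqu
    exact hqx (dvd_trans (Int.natCast_dvd_natCast.2 hqu) (hbdvd u hu))
  have hUz : ∀ u ∈ U, z ^ 4 ≤ pr4 u := by
    rintro ⟨e1, e2, e3, e4⟩ hu
    simp only [hU, Finset.mem_product] at hu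
    obtain ⟨h1, h2, h3, h4⟩ := hu
    have g1 := hSz 3 e1 (hXS 3 h1)
    have g2 := hSz 4 e2 (hXS 4 h2)
    have g3 := hSz 5 e3 (hXS 5 h3)
    have g4 := hSz 6 e4 (hXS 6 h4)
    calc z ^ 4 = z * z * z * z := by ring
      _ ≤ e1 * e2 * e3 * e4 := by gcongr
  have hinj : Set.InjOn (fun u : ℕ × ℕ × ℕ × ℕ => q * pr4 u) (U : Set _) := by
    intro u hu v hv huv
    have h1 := Nat.eq_of_mul_eq_mul_left hqp.pos huv
    have hUS : ∀ u ∈ U, u ∈ (S 3 ×ˢ S 4 ×ˢ S 5 ×ˢ S 6 : Finset (ℕ × ℕ × ℕ × ℕ)) := by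
      rintro ⟨e1, e2, e3, e4⟩ hu
      simp only [hU, Finset.mem_product] at hu ⊢
      exact ⟨hXS _ hu.1, hXS _ hu.2.1, hXS _ hu.2.2.1, hXS _ hu.2.2.2⟩
    exact inj4 (hprime 3) (hprime 4) (hprime 5) (hprime 6) (hdisj _ _ (by decide))
      (hdisj _ _ (by decide)) (hdisj _ _ (by decide)) (hdisj _ _ (by decide))
      (hdisj _ _ (by decide)) (hdisj _ _ (by decide)) (Finset.mem_coe.2 (hUS u hu))
      (Finset.mem_coe.2 (hUS v hv)) h1
  have hle := sum_ge_of_inj A (fun u : ℕ × ℕ × ℕ × ℕ => q * pr4 u) U hinj (by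
    rintro ⟨e1, e2, e3, e4⟩ hu
    have hq' := hqb _ hu
    simp only [hU, Finset.mem_product] at hu
    exact hA5 q hq e1 (hXS _ hu.1) e2 (hXS _ hu.2.1) e3 (hXS _ hu.2.2.1) e4 (hXS _ hu.2.2.2) hq')
    (fun d => dn ((h : ℝ) / d)) (fun d => dn_nonneg _)
  have hlow : ∀ u ∈ U, (1 / (16 * (z : ℝ) ^ 2)) ≤ dn ((h : ℝ) / ((q * pr4 u : ℕ) : ℝ)) := by
    intro u hu
    have hb : z ^ 4 ≤ pr4 u := hUz u hu
    have hbR : (z : ℝ) ^ 4 ≤ pr4 u := by exact_mod_cast hb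
    have hbpos : 0 < pr4 u := lt_of_lt_of_le (by positivity) hb
    have hpos : 0 < q * pr4 u := Nat.mul_pos hqp.pos hbpos
    have hq2 : (q : ℝ) ≤ 2 * z := by exact_mod_cast (hP2 q hq).le
    have hne : nm h (q * pr4 u) ≠ x := by
      intro heq
      apply hqx
      rw [← heq]
      exact dvd_trans ⟨((pr4 u : ℕ) : ℤ), by push_cast; ring⟩ (dvd_nm h (q * pr4 u))
    have hd1 : ((pr4 u : ℕ) : ℤ) ∣ nm h (q * pr4 u) :=
      dvd_trans ⟨(q : ℤ), by push_cast; ring⟩ (dvd_nm h (q * pr4 u))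
    have hd2 := hbdvd u hu
    have hz34 : (z : ℝ) ^ 3 ≤ (z : ℝ) ^ 4 := pow_le_pow_right₀ hzR (by norm_num)
    have hfar : ((pr4 u : ℕ) : ℝ) / 2 ≤ |(h : ℝ) - nm h (q * pr4 u)| := by
      by_contra hlt2
      push Not at hlt2
      have h3 : |((nm h (q * pr4 u) : ℤ) : ℝ) - x| < pr4 u := by
        have h4 := abs_sub_le ((nm h (q * pr4 u) : ℤ) : ℝ) h x
        rw [abs_sub_comm ((nm h (q * pr4 u) : ℤ) : ℝ) h] at h4
        linarith
      have h4 : |nm h (q * pr4 u) - x| < ((pr4 u : ℕ) : ℤ) := by exact_mod_cast h3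
      have h5 := Int.eq_zero_of_abs_lt_dvd (dvd_sub hd1 hd2) h4
      exact hne (by linarith)
    have := dn_ge h (q * pr4 u) hpos (1 / (4 * z)) (by positivity) (by
      refine le_trans ?_ hfar
      push_cast
      calc 1 / (4 * (z : ℝ)) * ((q : ℝ) * (pr4 u : ℝ)) ≤ 1 / (4 * (z : ℝ)) * ((2 * z) * (pr4 u : ℝ)) := by
            gcongr
        _ = (pr4 u : ℝ) / 2 := by field_simp; ring)
    refine le_trans (le_of_eq ?_) this
    field_simp
    norm_num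
  have hsum : (U.card : ℝ) * (1 / (16 * (z : ℝ) ^ 2)) ≤ ∑ d ∈ A, dn ((h : ℝ) / d) := by
    refine le_trans ?_ hle
    rw [← nsmul_eq_mul]
    exact Finset.card_nsmul_le_sum _ _ _ hlow
  have hUcard : (k : ℝ) ^ 4 / 16 ≤ U.card := by
    have h3 : (k : ℝ) ≤ 2 * (X 3).card := by exact_mod_cast hXcard 3 (by decide)
    have h4 : (k : ℝ) ≤ 2 * (X 4).card := by exact_mod_cast hXcard 4 (by decide)
    have h5 : (k : ℝ) ≤ 2 * (X 5).card := by exact_mod_cast hXcard 5 (by decide)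
    have h6 : (k : ℝ) ≤ 2 * (X 6).card := by exact_mod_cast hXcard 6 (by decide)
    have h7 : (k : ℝ) * (k * (k * k)) ≤ (2 * (X 3).card) * ((2 * (X 4).card) * ((2 * (X 5).card) * (2 * (X 6).card))) := by
      gcongr
    have h8 : (U.card : ℝ) = (X 3).card * ((X 4).card * ((X 5).card * (X 6).card)) := by
      simp only [hU, Finset.card_product]
      push_cast
      ring
    rw [h8]
    nlinarith
  have h5 : (2 : ℝ) * z ≤ (U.card : ℝ) * (1 / (16 * (z : ℝ) ^ 2)) := by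
    have h6 : 32 * (z : ℝ) ^ 3 ≤ U.card := by linarith
    calc (2 : ℝ) * z = 32 * (z : ℝ) ^ 3 * (1 / (16 * (z : ℝ) ^ 2)) := by field_simp; ring
      _ ≤ (U.card : ℝ) * (1 / (16 * (z : ℝ) ^ 2)) := by gcongr
  linarith

end Pool.Agent.H57R3
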