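import Pool.Agent.H57R3.Final

set_option autoImplicit false

namespace Pool.Agent.H57R3

open Finset

/-- `σ(n)/n ≤ exp (2 ∑_{p ∣ n} 1/p)` -/
lemma sigma_le (n : ℕ) (hn : n ≠ 0) :
    ((∑ i ∈ n.divisors, i : ℕ) : ℝ) / n ≤ Real.exp (2 * ∑ p ∈ n.primeFactors, (1 : ℝ) / p) := by
  have hnR : (0 : ℝ) < n := by exact_mod_cast Nat.pos_of_ne_zero hn
  rw [Nat.sum_divisors hn]
  have hfac : (n : ℝ) = ∏ p ∈ n.primeFactors, (p : ℝ) ^ (n.factorization p) := by
    have h := Nat.prod_factorization_pow_eq_self hn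
    rw [Finsupp.prod, Nat.support_factorization] at h
    exact_mod_cast h.symm
  rw [Finset.mul_sum, Real.exp_sum, div_le_iff₀ hnR]
  conv_rhs => rw [hfac]
  rw [← Finset.prod_mul_distrib]
  push_cast
  refine Finset.prod_le_prod (fun p _ => by positivity) fun p hp => ?_
  have hpp := Nat.prime_of_mem_primeFactors hp
  have hp2 : (2 : ℝ) ≤ p := by exact_mod_cast hpp.two_le
  set e := n.factorization p with he
  have hgeom : ∑ k ∈ Finset.range (e + 1), (p : ℝ) ^ k = ((p : ℝ) ^ (e + 1) - 1) / (p - 1) :=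
    geom_sum_eq (by linarith) _
  rw [hgeom]
  have hp1 : (0 : ℝ) < (p : ℝ) - 1 := by linarith
  rw [div_le_iff₀ hp1]
  have h1 : 1 + 2 * ((1 : ℝ) / p) ≤ Real.exp (2 * (1 / p)) := by
    have := Real.add_one_le_exp (2 * ((1 : ℝ) / p))
    linarith
  have h2 : (p : ℝ) ≤ (1 + 2 * ((1 : ℝ) / p)) * (p - 1) := by
    have hp0 : (0 : ℝ) < p := by linarith
    have h3 : (1 + 2 * ((1 : ℝ) / p)) * (p - 1) = p + 1 - 2 / p := by
      field_simp; ring
    rw [h3]
    have h4 : 2 / (p : ℝ) ≤ 1 := by rw [div_le_one hp0]; exact hp2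
    linarith
  calc (p : ℝ) ^ (e + 1) - 1 ≤ (p : ℝ) ^ (e + 1) := by linarith
    _ = p * (p : ℝ) ^ e := by ring
    _ ≤ ((1 + 2 * ((1 : ℝ) / p)) * (p - 1)) * (p : ℝ) ^ e := by gcongr
    _ ≤ (Real.exp (2 * (1 / p)) * (p - 1)) * (p : ℝ) ^ e := by gcongr
    _ = Real.exp (2 * (1 / p)) * (p : ℝ) ^ e * (p - 1) := by ring

/-- if the rich blocks carry harmonic weight at least 4 then `1` is a sum of distinct unit
fractions whose denominators divide the product of the primes -/
lemma one_repr (P : Finset ℕ) (hP : ∀ p ∈ P, p.Prime) (I : ℕ) (hI : 160 ≤ I)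
    (hw : 4 ≤ ∑ j ∈ Finset.Ico 160 I, wt P j) :
    ∃ D : Finset ℕ, (∀ d ∈ D, d ∣ ∏ q ∈ P, q) ∧ (∀ d ∈ D, d ≠ 1) ∧
      ∑ d ∈ D, (1 : ℝ) / d = 1 := by
  have hN : (0 : ℝ) < ((∏ q ∈ below P 160, q : ℕ) : ℝ) := by
    have : 0 < ∏ q ∈ below P 160, q :=
      Finset.prod_pos fun q hq => (hP q (Finset.filter_subset _ _ hq)).pos
    exact_mod_cast this
  obtain ⟨D, hD1, hD2, hD3⟩ := main_induction P hP I (I - 160) 160 (by omega) le_rfl
    (∏ q ∈ below P 160, q) (by
      rw [div_self hN.ne']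
      norm_num) (by
      rw [div_self hN.ne']
      linarith)
  rw [div_self hN.ne'] at hD3
  refine ⟨D, fun d hd => (hD1 d hd).trans ?_, ?_, hD3⟩
  · exact Finset.prod_dvd_prod_of_subset _ _ _ (Finset.filter_subset _ _)
  · rintro d hd rfl
    obtain ⟨p, hp, _, hp1⟩ := hD2 1 hd
    exact (hP p hp).one_lt.ne' (Nat.dvd_one.1 hp1)

/-- a bound for the geometric-type series of poor blocks -/
lemma poor_sum (I : ℕ) : ∑ j ∈ Finset.range I, (7 : ℝ) / 2 ^ (j / 8) ≤ 112 := by
  have key : ∀ m : ℕ, ∑ j ∈ Finset.range (8 * m), (7 : ℝ) / 2 ^ (j / 8) = 112 - 112 / 2 ^ m := by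
    intro m
    induction m with
    | zero => simp
    | succ m ih =>
      have h : 8 * (m + 1) = 8 * m + 8 := by ring
      rw [h, Finset.sum_range_add, ih]
      have h2 : ∀ x ∈ Finset.range 8, (7 : ℝ) / 2 ^ ((8 * m + x) / 8) = 7 / 2 ^ m := by
        intro x hx
        have h3 : (8 * m + x) / 8 = m := by
          have := Finset.mem_range.1 hx
          omega
        rw [h3]
      rw [Finset.sum_congr rfl h2, Finset.sum_const, Finset.card_range, nsmul_eq_mul, pow_succ]
      field_simp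
      ring
  have h1 : ∑ j ∈ Finset.range I, (7 : ℝ) / 2 ^ (j / 8) ≤
      ∑ j ∈ Finset.range (8 * I), (7 : ℝ) / 2 ^ (j / 8) := by
    refine Finset.sum_le_sum_of_subset_of_nonneg ?_ fun j _ _ => by positivity
    intro j hj
    rw [Finset.mem_range] at hj ⊢
    omega
  rw [key] at h1
  have : (0 : ℝ) ≤ 112 / 2 ^ I := by positivity
  linarith

lemma harmonic_split (P : Finset ℕ) (hP : ∀ p ∈ P, p.Prime) (I : ℕ) (hI : 160 ≤ I)
    (hPI : ∀ p ∈ P, p < 2 ^ I) :
    ∑ p ∈ P, (1 : ℝ) / p ≤ 2 ^ 160 + 112 + ∑ j ∈ Finset.Ico 160 I, wt P j := by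
  classical
  -- block by block
  have hblk : ∀ j, ∑ p ∈ blk P j, (1 : ℝ) / p ≤ 7 / 2 ^ (j / 8) + wt P j := by
    intro j
    unfold wt
    split_ifs with h
    · have : (0 : ℝ) ≤ 7 / 2 ^ (j / 8) := by positivity
      linarith
    · push Not at h
      have h1 : ∑ p ∈ blk P j, (1 : ℝ) / p ≤ (blk P j).card * (1 / (2 : ℝ) ^ j) := by
        rw [← nsmul_eq_mul]
        refine Finset.sum_le_card_nsmul _ _ _ fun p hp => ?_
        simp only [blk, Finset.mem_filter] at hp
        have h2 : (2 : ℝ) ^ j ≤ p := by exact_mod_cast hp.2.1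
        exact one_div_le_one_div_of_le (by positivity) h2
      have h3 : ((blk P j).card : ℝ) ≤ 7 * 2 ^ (j - j / 8) := by exact_mod_cast h.le
      have h4 : (2 : ℝ) ^ j = 2 ^ (j / 8) * 2 ^ (j - j / 8) := by
        rw [← pow_add]; congr 1; omega
      calc ∑ p ∈ blk P j, (1 : ℝ) / p ≤ (blk P j).card * (1 / (2 : ℝ) ^ j) := h1
        _ ≤ (7 * 2 ^ (j - j / 8)) * (1 / (2 : ℝ) ^ j) := by gcongr
        _ = 7 / 2 ^ (j / 8) + 0 := by rw [h4]; field_simp; ring
  -- split P
  have hsub : P ⊆ below P 160 ∪ (Finset.Ico 160 I).biUnion (blk P) := by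
    intro p hp
    rw [Finset.mem_union]
    by_cases h : p < 2 ^ 160
    · left
      simp only [below, Finset.mem_filter]
      exact ⟨hp, h⟩
    · right
      push Not at h
      rw [Finset.mem_biUnion]
      have hp0 : p ≠ 0 := (hP p hp).ne_zero
      refine ⟨Nat.log 2 p, ?_, ?_⟩
      · rw [Finset.mem_Ico]
        constructor
        · exact Nat.le_log_of_pow_le (by norm_num) h
        · exact Nat.log_lt_of_lt_pow hp0 (hPI p hp)
      · simp only [blk, Finset.mem_filter]
        exact ⟨hp, Nat.pow_log_le_self 2 hp0, Nat.lt_pow_succ_log_self (by norm_num) p⟩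
  have h1 : ∑ p ∈ P, (1 : ℝ) / p ≤ ∑ p ∈ below P 160, (1 : ℝ) / p +
      ∑ j ∈ Finset.Ico 160 I, ∑ p ∈ blk P j, (1 : ℝ) / p := by
    have hu : ∀ s t : Finset ℕ, ∑ d ∈ s ∪ t, (1 : ℝ) / d ≤ ∑ d ∈ s, (1 : ℝ) / d + ∑ d ∈ t, (1 : ℝ) / d := by
      intro s t
      have h := Finset.sum_union_inter (s₁ := s) (s₂ := t) (f := fun d : ℕ => (1 : ℝ) / d)
      have h' : (0 : ℝ) ≤ ∑ d ∈ s ∩ t, (1 : ℝ) / d := Finset.sum_nonneg fun d _ => by positivity
      linarith
    refine le_trans (Finset.sum_le_sum_of_subset_of_nonneg hsub fun p _ _ => by positivity) ?_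
    refine le_trans (hu _ _) ?_
    have h2 : ∀ J : Finset ℕ, ∑ p ∈ J.biUnion (blk P), (1 : ℝ) / p ≤
        ∑ j ∈ J, ∑ p ∈ blk P j, (1 : ℝ) / p := by
      intro J
      induction J using Finset.induction_on with
      | empty => simp
      | insert j J hj ih =>
        rw [Finset.biUnion_insert, Finset.sum_insert hj]
        exact le_trans (hu _ _) (by linarith)
    have := h2 (Finset.Ico 160 I)
    linarith
  have h2 : ∑ p ∈ below P 160, (1 : ℝ) / p ≤ 2 ^ 160 := by
    have h3 : ∑ p ∈ below P 160, (1 : ℝ) / p ≤ (below P 160).card * 1 := by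
      rw [← nsmul_eq_mul]
      refine Finset.sum_le_card_nsmul _ _ _ fun p hp => ?_
      simp only [below, Finset.mem_filter] at hp
      have hp1 : (1 : ℝ) ≤ p := by exact_mod_cast (hP p hp.1).one_lt.le
      rw [div_le_one (by linarith)]
      exact hp1
    have h4 : (below P 160).card ≤ 2 ^ 160 := by
      have h5 : below P 160 ⊆ Finset.range (2 ^ 160) := by
        intro p hp
        simp only [below, Finset.mem_filter] at hp
        exact Finset.mem_range.2 hp.2
      have := Finset.card_le_card h5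
      rwa [Finset.card_range] at this
    have h5 : ((below P 160).card : ℝ) ≤ 2 ^ 160 := by exact_mod_cast h4
    linarith
  have h3 : ∑ j ∈ Finset.Ico 160 I, ∑ p ∈ blk P j, (1 : ℝ) / p ≤
      ∑ j ∈ Finset.Ico 160 I, (7 / 2 ^ (j / 8) + wt P j) :=
    Finset.sum_le_sum fun j _ => hblk j
  rw [Finset.sum_add_distrib] at h3
  have h4 : ∑ j ∈ Finset.Ico 160 I, (7 : ℝ) / 2 ^ (j / 8) ≤ 112 := by
    refine le_trans (Finset.sum_le_sum_of_subset_of_nonneg ?_ fun j _ _ => by positivity)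
      (poor_sum I)
    intro j hj
    rw [Finset.mem_Ico] at hj
    exact Finset.mem_range.2 hj.2
  linarith

/-- A positive integer that is not a sum of distinct proper divisors has bounded abundancy. -/
theorem abundancy_bound (n : ℕ) (hn : 0 < n)
    (hno : ¬ ∃ s ⊆ n.properDivisors, ∑ i ∈ s, i = n) :
    ((∑ i ∈ n.divisors, i : ℕ) : ℝ) / (n : ℝ) ≤ Real.exp (2 * (2 ^ 160 + 112 + 4)) := by
  classical
  refine (sigma_le n hn.ne').trans (Real.exp_le_exp.2 ?_)
  have hP : ∀ p ∈ n.primeFactors, p.Prime := fun p hp => Nat.prime_of_mem_primeFactors hp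
  set I : ℕ := max 160 n with hI
  have hPI : ∀ p ∈ n.primeFactors, p < 2 ^ I := by
    intro p hp
    have h1 : p ≤ n := Nat.le_of_dvd hn (Nat.dvd_of_mem_primeFactors hp)
    have h2 : n < 2 ^ n := Nat.lt_two_pow_self
    have h3 : 2 ^ n ≤ 2 ^ I := Nat.pow_le_pow_right (by norm_num) (le_max_right _ _)
    omega
  have hsplit := harmonic_split n.primeFactors hP I (le_max_left _ _) hPI
  have hw : ∑ j ∈ Finset.Ico 160 I, wt n.primeFactors j < 4 := by
    by_contra hcon
    push Not at hcon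
    obtain ⟨D, hD1, hD2, hD3⟩ := one_repr n.primeFactors hP I (le_max_left _ _) hcon
    apply hno
    have hrad : ∏ q ∈ n.primeFactors, q ∣ n := Nat.prod_primeFactors_dvd n
    have hDn : ∀ d ∈ D, d ∣ n := fun d hd => (hD1 d hd).trans hrad
    refine ⟨D.image (fun d => n / d), ?_, ?_⟩
    · intro m hm
      obtain ⟨d, hd, rfl⟩ := Finset.mem_image.1 hm
      rw [Nat.mem_properDivisors]
      refine ⟨Nat.div_dvd_of_dvd (hDn d hd), ?_⟩
      have hd0 : d ≠ 0 := by
        rintro rfl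
        exact hn.ne' (Nat.eq_zero_of_zero_dvd (hDn 0 hd))
      have hd1 := hD2 d hd
      exact Nat.div_lt_self hn (by omega)
    · have hinj : Set.InjOn (fun d => n / d) (D : Set ℕ) := by
        intro d hd e he hde
        have h1 := hDn d hd
        have h2 := hDn e he
        simp only at hde
        have h3 : n / (n / d) = d := Nat.div_div_self h1 hn.ne'
        have h4 : n / (n / e) = e := Nat.div_div_self h2 hn.ne'
        rw [← h3, ← h4, hde]
      rw [Finset.sum_image hinj]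
      have h1 : ((∑ d ∈ D, n / d : ℕ) : ℝ) = n := by
        rw [Nat.cast_sum]
        have h2 : ∀ d ∈ D, ((n / d : ℕ) : ℝ) = n * (1 / d) := by
          intro d hd
          have hd0 : (d : ℝ) ≠ 0 := by
            have : d ≠ 0 := by
              rintro rfl
              exact hn.ne' (Nat.eq_zero_of_zero_dvd (hDn 0 hd))
            exact_mod_cast this
          rw [Nat.cast_div (hDn d hd) hd0]
          ring
        rw [Finset.sum_congr rfl h2, ← Finset.mul_sum, hD3, mul_one]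
      exact_mod_cast h1
  linarith

end Pool.Agent.H57R3
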